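import Pool.Agent.Helper48_MWGI.JPE2
import Pool.Agent.Helper85_MWGI.J2A
import Pool.Agent.Helper85_MWGI.JPS

/-!
# Block MWGI: all edges are join prime (no hypotheses)
-/

set_option autoImplicit false

namespace Pool.Agent.MWGI.H48

open Pool.Agent.Helper14_MV Pool.Agent.Helper2_MV Pool.Agent.MVO Pool.Agent.MWL Pool.Agent.MWS
open Pool.Agent.MWH Pool.Agent.MWHP Pool.Agent.MWGI

theorem j2a : J2aStmt := fun _ _ hB hJ e he => H85.j2a hB hJ e he

/-- row JPE -/
theorem jpe : JpeStmt := by
  intro n β hB e he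
  cases e with
  | re k i p => exact jre j2a hB k i p he
  | le k i p => exact jle j2a hB k i p he
  | dz k i p d => exact jdz j2a hB k i p d he
  | s1 => exact H85.js1 (fun _ _ h => basG h) n β hB
  | s2 => exact H85.js2 (fun _ _ h => basG h) n β hB
  | s3 => exact H85.js3 (fun _ _ h => basG h) n β hB

end Pool.Agent.MWGI.H48
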