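import Pool.Agent.MWGI.StmtsE

/-!
# Block MWGI, row RTZ0: empty blocks can be deleted from canonical words
-/

set_option autoImplicit false

namespace Pool.Agent.MWGI.H48R

open Pool.Agent.Helper14_MV Pool.Agent.Helper2_MV Pool.Agent.MVO Pool.Agent.MWL Pool.Agent.MWS
open Pool.Agent.MWH Pool.Agent.MWGI

theorem pshB_nil' {k : ℕ} {f : ℕ → ℕ} (B : ℕ → List ℕ) {j : ℕ}
    (h : ∀ i ≤ k, f i = j → B i = []) : pshB k f B j = [] := by
  apply List.eq_nil_iff_forall_not_mem.2
  intro c hc
  rw [mem_pshB] at hc
  obtain ⟨i, hi, hf, hc⟩ := hc
  rw [h i hi hf] at hc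
  cases hc

theorem pshB_one {f : ℕ → ℕ} (B : ℕ → List ℕ) {j r : ℕ} : ∀ {k : ℕ}, r ≤ k → f r = j →
    (∀ i ≤ k, f i = j → i ≠ r → B i = []) → pshB k f B j = B r := by
  intro k
  induction k with
  | zero =>
    intro hr hf _
    have : r = 0 := by omega
    subst this
    rw [pshB_zero, if_pos hf]
  | succ k ih =>
    intro hr hf h
    rw [pshB_succ]
    by_cases hrk : r = k + 1
    · subst hrk
      rw [if_pos hf, pshB_nil' B (fun i hi hfi => h i (by omega) hfi (by omega))]
      rfl
    · rw [ih (by omega) hf (fun i hi hfi hir => h i (by omega) hfi hir)]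
      by_cases hfk : f (k + 1) = j
      · rw [if_pos hfk, h (k + 1) (le_refl _) hfk (fun e => hrk e.symm), List.append_nil]
      · rw [if_neg hfk, List.append_nil]

theorem wz_blk (n k i p : ℕ) (Z : ℕ → Bool) (u v : ℕ) : BlkOk k (wz n i p Z u v) := by
  intro j _ a ha
  have h01 : a = 0 ∨ a = 1 := by
    unfold wz at ha
    by_cases hi : j = i
    · rw [if_pos hi, List.mem_append, List.mem_cons] at ha
      rcases ha with h | h | h
      · exact Or.inl (List.eq_of_mem_replicate h)
      · exact Or.inr h
      · exact Or.inl (List.eq_of_mem_replicate h)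
    · rw [if_neg hi] at ha
      by_cases hp : j = p
      · rw [if_pos hp, List.mem_singleton] at ha
        exact Or.inr ha
      · rw [if_neg hp] at ha
        by_cases hz : Z j = true
        · rw [if_pos hz] at ha
          exact Or.inl (List.eq_of_mem_replicate ha)
        · rw [if_neg hz] at ha
          cases ha
  rcases h01 with rfl | rfl
  · intro h; omega
  · intro h; omega

/-- row RTZ0 -/
theorem rtz0 : Rtz0Stmt := by
  intro n k
  induction k with
  | zero =>
    intro i p Z hi hp hip
    omega
  | succ k ih =>
    intro i p Z hi hp hip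
    by_cases h : ∃ j ≤ k + 1, j ≠ i ∧ j ≠ p ∧ Z j = false
    swap
    · push Not at h
      refine ⟨k + 1, i, p, hi, hp, hip, fun θ u v u' v' => ?_⟩
      have e : ∀ u v, asm (k + 1) (wz n i p Z u v) = asm (k + 1) (wz n i p Za u v) := by
        intro u v
        apply asm_congr
        intro j hj
        unfold wz
        by_cases hji : j = i
        · rw [if_pos hji, if_pos hji]
        · rw [if_neg hji, if_neg hji]
          by_cases hjp : j = p
          · rw [if_pos hjp, if_pos hjp]
          · rw [if_neg hjp, if_neg hjp]
            have := h j hj hji hjp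
            have hz : Z j = true := by
              cases hz : Z j
              · exact absurd hz this
              · rfl
            rw [hz]
            rfl
      unfold Wz
      rw [e, e]
    · obtain ⟨j, hj, hji, hjp, hz⟩ := h
      have hk : 1 ≤ k := by omega
      obtain ⟨f, hf⟩ : ∃ f : ℕ → ℕ, ∀ r, f r = if r < j then r else r + 1 := ⟨_, fun _ => rfl⟩
      obtain ⟨g, hg⟩ : ∃ g : ℕ → ℕ, ∀ r, g r = if r < j then r else r - 1 := ⟨_, fun _ => rfl⟩
      have hfg : ∀ r, r ≠ j → f (g r) = r := by
        intro r hr
        rw [hf, hg]
        split_ifs <;> omega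
      have hgf : ∀ r, g (f r) = r := by
        intro r
        rw [hf, hg]
        split_ifs <;> omega
      have hfj : ∀ r, f r ≠ j := by
        intro r
        rw [hf]
        split_ifs <;> omega
      have hgk : ∀ r ≤ k + 1, g r ≤ k := by
        intro r hr
        rw [hg]
        split_ifs <;> omega
      have hfk : ∀ r ≤ k, f r ≤ k + 1 := by
        intro r hr
        rw [hf]
        split_ifs <;> omega
      have hgip : g i ≠ g p := by
        intro e
        apply hip
        rw [← hfg i (Ne.symm hji), ← hfg p (Ne.symm hjp), e]
      obtain ⟨k', i', p', h1, h2, h3, h4⟩ := ih (g i) (g p) (fun r => Z (f r)) (hgk i hi) (hgk p hp)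
        hgip
      refine ⟨k', i', p', h1, h2, h3, fun θ u v u' v' => ?_⟩
      rw [← h4]
      have bg : BMap (k + 1) k g := by
        constructor
        · intro a b hab _
          rw [hg, hg]
          split_ifs <;> omega
        · exact hgk
      have bf : BMap k (k + 1) f := by
        constructor
        · intro a b hab _
          rw [hf, hf]
          split_ifs <;> omega
        · exact hfk
      have ej : ∀ u v, wz n i p Z u v j = [] := by
        intro u v
        unfold wz
        rw [if_neg hji, if_neg hjp, hz]
        rfl
      have ew : ∀ u v r, wz n i p Z u v (f r) = wz n (g i) (g p) (fun r => Z (f r)) u v r := by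
        intro u v r
        unfold wz
        have e1 : (f r = i) ↔ (r = g i) := by
          constructor
          · intro e; rw [← e, hgf]
          · intro e; rw [e, hfg i (Ne.symm hji)]
        have e2 : (f r = p) ↔ (r = g p) := by
          constructor
          · intro e; rw [← e, hgf]
          · intro e; rw [e, hfg p (Ne.symm hjp)]
        by_cases c1 : r = g i
        · rw [if_pos (e1.2 c1), if_pos c1]
        · rw [if_neg (fun c => c1 (e1.1 c)), if_neg c1]
          by_cases c2 : r = g p
          · rw [if_pos (e2.2 c2), if_pos c2]
          · rw [if_neg (fun c => c2 (e2.1 c)), if_neg c2]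
      have eg : ∀ u v, asm k (pshB (k + 1) g (wz n i p Z u v)) =
          asm k (wz n (g i) (g p) (fun r => Z (f r)) u v) := by
        intro u v
        apply asm_congr
        intro r hr
        rw [pshB_one (wz n i p Z u v) (hfk r hr) (hgf r) ?_]
        · exact ew u v r
        · intro t ht hgt htr
          by_cases htj : t = j
          · rw [htj]
            exact ej u v
          · exfalso
            apply htr
            rw [← hfg t htj, hgt]
      have efk : ∀ u v, asm (k + 1) (pshB k f (wz n (g i) (g p) (fun r => Z (f r)) u v)) =
          asm (k + 1) (wz n i p Z u v) := by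
        intro u v
        apply asm_congr
        intro r hr
        by_cases hrj : r = j
        · rw [hrj, pshB_nil _ (fun t _ => hfj t), ej]
        · rw [pshB_one (wz n (g i) (g p) (fun r => Z (f r)) u v) (hgk r hr) (hfg r hrj) ?_]
          · rw [← ew, hfg r hrj]
          · intro t _ hft htr
            exfalso
            apply htr
            rw [← hft, hgf]
      unfold Wz
      constructor
      · intro hr
        have h5 := rr_push θ bg (wz_blk n (k + 1) i p Z u v) (wz_blk n (k + 1) i p Z u' v') hr
        rw [eg, eg] at h5
        exact h5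
      · intro hr
        have h5 := rr_push θ bf (wz_blk n k (g i) (g p) (fun r => Z (f r)) u v)
          (wz_blk n k (g i) (g p) (fun r => Z (f r)) u' v') hr
        rw [efk, efk] at h5
        exact h5

end Pool.Agent.MWGI.H48R
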