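import Pool.Agent.MWGI.StmtsC
import Pool.Agent.Helper48_MWHP.Bridge

/-!
# Block MWGI, row SWF: exchange of two light letters with another common block
-/

set_option autoImplicit false

namespace Pool.Agent.MWGI.H48S

open Pool.Agent.Helper14_MV Pool.Agent.Helper2_MV Pool.Agent.MVO Pool.Agent.MWL Pool.Agent.MWS
open Pool.Agent.MWH Pool.Agent.MWGI

theorem count_rp {z m : ℕ} {W : List ℕ} (h : z ∉ W) : (rp m W).count z = 0 := by
  rw [List.count_eq_zero]
  intro hz
  have : z ∈ (List.replicate m W).flatten := hz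
  rw [List.mem_flatten] at this
  obtain ⟨l, hl, hzl⟩ := this
  rw [List.eq_of_mem_replicate hl] at hzl
  exact h hzl

/-- the letters of `w` are multiple -/
theorem mult {n k : ℕ} {H pre suf A D W : List ℕ} {a b y z : ℕ}
    (hW : ∀ z ∈ W, z ∈ H ∧ z ∈ A ∧ z ∈ D)
    (hok : Ok1 k H pre suf (A ++ (rp n W ++ a :: (rp (n + 1) W ++ b :: (rp n W ++ D)))))
    (hz : z ∈ pre ++ suf) (hN : NS k z) (hy : z ≠ y) :
    2 ≤ ((pre ++ A) ++ (List.replicate n y ++ a :: (List.replicate (n + 1) y ++
      b :: (List.replicate n y ++ (D ++ suf))))).count z := by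
  have h1 := hok.mu z hz hN
  by_cases hzW : z ∈ W
  · have h2 := List.count_pos_iff.2 (hW z hzW).2.1
    have h3 := List.count_pos_iff.2 (hW z hzW).2.2
    simp only [List.count_append, List.count_cons]
    omega
  · have e1 := count_rp (m := n) hzW
    have e2 := count_rp (m := n + 1) hzW
    have e3 : ∀ m, (List.replicate m y).count z = 0 := by
      intro m
      rw [List.count_eq_zero]
      intro h
      exact hy (List.eq_of_mem_replicate h)
    simp only [List.count_append, List.count_cons, e1, e2, e3] at h1 ⊢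
    omega

theorem subst_tools (y : ℕ) (W : List ℕ) : ∃ g : ℕ → List ℕ, (∀ z, z ≠ y → g z = [z]) ∧
    (∀ L : List ℕ, y ∉ L → L.flatMap g = L) ∧
    ∀ m, (List.replicate m y).flatMap g = rp m W := by
  refine ⟨fun z => if z = y then W else [z], fun z hz => if_neg hz, ?_, ?_⟩
  · intro L
    induction L with
    | nil => intro _; rfl
    | cons z L ih =>
      intro hL
      rw [List.mem_cons, not_or] at hL
      rw [List.flatMap_cons, ih hL.2, if_neg (fun e => hL.1 e.symm)]
      rfl
  · intro m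
    rw [List.flatMap_replicate, if_pos rfl]
    rfl

theorem exF {n k : ℕ} {η : FIC} (hFE : FE n 1 (RR η)) {H pre suf q w r : List ℕ} {a b : ℕ}
    (hab : a ≠ b) (hs : suf = q ++ a :: (w ++ b :: r)) (hw : ∀ z ∈ w, NS k z) :
    EXo n k η H pre suf a b 1 := by
  intro A D W hW hok
  obtain ⟨y, hy⟩ := Infinite.exists_notMem_finset (a :: b :: (pre ++ A ++ D ++ suf)).toFinset
  simp only [List.mem_toFinset, List.mem_cons, List.mem_append, not_or] at hy
  obtain ⟨hya, hyb, ⟨⟨hyp, hyA⟩, hyD⟩, hys⟩ := hy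
  have h := hFE (pre ++ A) (D ++ q) w r y a b hya hyb hab (by
    intro z hz
    have hzs : z ∈ suf := by rw [hs]; simp [hz]
    have h1 := mult (y := y) hW hok (List.mem_append_right _ hzs) (hw z hz)
      (fun e => hys (e ▸ hzs))
    rw [hs] at h1
    simpa only [List.append_assoc] using h1)
  obtain ⟨g, g1, g2, g3⟩ := subst_tools y W
  have hsufy : y ∉ q ++ a :: (w ++ b :: r) := by rw [← hs]; exact hys
  simp only [List.mem_append, List.mem_cons, not_or] at hsufy
  have h2 := RR.sub g h
  simp only [List.flatMap_append, List.flatMap_cons, g3, g1 a (Ne.symm hya), g1 b (Ne.symm hyb),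
    g2 pre hyp, g2 A hyA, g2 D hyD, g2 q hsufy.1, g2 w hsufy.2.2.1, g2 r hsufy.2.2.2.2] at h2
  unfold Wd
  rw [hs]
  simpa [List.append_assoc] using h2

theorem exG {n k : ℕ} {η : FIC} (hFE : FE' n 1 (RR η)) {H pre suf q w r : List ℕ} {a b : ℕ}
    (hab : a ≠ b) (hs : pre = r ++ a :: (w ++ b :: q)) (hw : ∀ z ∈ w, NS k z) :
    EXo n k η H pre suf a b 1 := by
  intro A D W hW hok
  obtain ⟨y, hy⟩ := Infinite.exists_notMem_finset (a :: b :: (pre ++ A ++ D ++ suf)).toFinset
  simp only [List.mem_toFinset, List.mem_cons, List.mem_append, not_or] at hy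
  obtain ⟨hya, hyb, ⟨⟨hyp, hyA⟩, hyD⟩, hys⟩ := hy
  have h := hFE (D ++ suf) (q ++ A) w r y a b hya hyb hab (by
    intro z hz
    have hzs : z ∈ pre := by rw [hs]; simp [hz]
    have h1 := mult (y := y) hW hok (List.mem_append_left _ hzs) (hw z hz)
      (fun e => hyp (e ▸ hzs))
    rw [hs] at h1
    simpa only [List.append_assoc, List.cons_append] using h1)
  obtain ⟨g, g1, g2, g3⟩ := subst_tools y W
  have hprey : y ∉ r ++ a :: (w ++ b :: q) := by rw [← hs]; exact hyp
  simp only [List.mem_append, List.mem_cons, not_or] at hprey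
  have h2 := RR.sub g h
  simp only [List.flatMap_append, List.flatMap_cons, g3, g1 a (Ne.symm hya), g1 b (Ne.symm hyb),
    g2 suf hys, g2 A hyA, g2 D hyD, g2 q hprey.2.2.2.2, g2 w hprey.2.2.1, g2 r hprey.1] at h2
  unfold Wd
  rw [hs]
  simpa [List.append_assoc] using h2

/-- row SWF -/
theorem swf : SwfStmt := by
  intro n k θ C hB hC i j a b hi hj hij hab haj hbj H _ _
  obtain ⟨P, c, Q, hd⟩ := MWHP.Br.two_mem haj hbj hab
  have hcN : ∀ z ∈ c, NS k z := by
    intro z hz
    apply hC.ok j hj z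
    rcases hd with h | h <;> rw [h] <;> simp [hz]
  rcases Nat.lt_or_gt_of_ne hij with hlt | hlt
  · obtain ⟨R, R', hs⟩ := suf_split (B := C) hlt (by omega : j ≤ i + (k - i))
    rcases hd with h | h
    · left
      exact exF hB.fe hab (q := R ++ P) (w := c) (r := Q ++ R') (by rw [hs, h]; simp) hcN
    · right
      exact exF hB.fe (Ne.symm hab) (q := R ++ P) (w := c) (r := Q ++ R') (by rw [hs, h]; simp) hcN
  · obtain ⟨R, hs⟩ := pre_split (B := C) hlt
    rcases hd with h | h
    · left
      exact exG hB.fe' hab (r := MVO.pre C j ++ P) (w := c) (q := Q ++ R) (by rw [hs, h]; simp) hcN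
    · right
      exact exG hB.fe' (Ne.symm hab) (r := MVO.pre C j ++ P) (w := c) (q := Q ++ R)
        (by rw [hs, h]; simp) hcN

end Pool.Agent.MWGI.H48S
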