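import Pool.Agent.Helper48_MWGI.CompA
import Pool.Agent.Helper48_MWGI.JPE
import Pool.Agent.Helper43_MWGI.NWR
import Pool.Agent.Helper30_MWGI.NWL
import Pool.Agent.Helper75_MWGI.NWD
import Pool.Agent.Helper10_MWGI.NRW
import Pool.Agent.Helper21_MWGI.NSS
import Pool.Agent.Helper21_MWGI.CSB
import Pool.Agent.Helper30_MWGI.MV1
import Pool.Agent.Helper45_MWGI.MV2
import Pool.Agent.Helper43_MWGI.CRM
import Pool.Agent.Helper88_MWGI.MV3
import Pool.Agent.Helper8_MWGI.MWR
import Pool.Agent.Helper53_MWGI.MWL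
import Pool.Agent.Helper51_MWGI.MWD
import Pool.Agent.Helper66_MWGI.VEC
import Pool.Agent.Helper23_MWGI.VER
import Pool.Agent.Helper59_MWGI.SW0
import Pool.Agent.Helper36_MWGI.MSW
import Pool.Agent.Helper4_MWGI.KSS
import Pool.Agent.Helper95_MWGI.SQ2
import Pool.Agent.Helper25_MWGI.TYP
import Pool.Agent.Helper98_MWGI.HYB
import Pool.Agent.Helper77_MWGI.TRE
import Pool.Agent.Helper46_MWGI.TLE
import Pool.Agent.Helper35_MWGI.TCR
import Pool.Agent.Helper5_MWGI.TSW
import Pool.Agent.Helper62_MWGI.DTT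
import Pool.Agent.Helper15_MWGI.TSF
import Pool.Agent.Helper27_MWGI.EWI
import Pool.Agent.Helper48_MWGI.RTZ0
import Pool.Agent.Helper48_MWGI.SWF

/-!
# Block MWGI: the sufficiency of the system `SysH2` for all periods (composition of the rows)
-/

set_option autoImplicit false

namespace Pool.Agent.MWGI.Comp

open Pool.Agent.MWGI

theorem nwr : NwrStmt := H43.nwr H50.wex
theorem nwl : NwlStmt := H30.nwl H50.wex
theorem nwd : NwdStmt := H75.nwd H50.wex
theorem dza : DzaStmt := H4.dza H50.wex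
theorem nrw : NrwStmt := H10.nrw
theorem nss : NssStmt := H21.nss
theorem csb : CsbStmt := H21C.csb
theorem mv1 : Mv1Stmt := H30.mv1
theorem mv2 : Mv2Stmt := H45.mv2
theorem crm : CrmStmt := H43.crm A.exl
theorem mv3 : Mv3Stmt := H88.mv3 crm
theorem mwr : MwrStmt := H8.mwr
theorem mwl : MwlStmt := H53.mwl
theorem mwd : MwdStmt := H51.mwd crm
theorem vec : VecStmt := H66.vec A.prm A.exs
theorem ver : VerStmt := H23.ver A.prm A.exs
theorem sw0 : Sw0Stmt := H59.sw0 A.exs
theorem msw : MswStmt := H36.msw A.prm A.exs crm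
theorem kss : KssStmt := H4.kss
theorem sq2 : Sq2Stmt := H95.sq2
theorem typ : TypStmt := H25.typ
theorem hyb : HybStmt := H98.hyb
theorem tsf : TsfStmt := H15.tsf
theorem dtt : DttStmt := H62.dtt A.bbl
theorem rtz0 : Rtz0Stmt := H48R.rtz0
theorem swf : SwfStmt := H48S.swf
theorem tre : TreStmt := H77.tre typ hyb rtz0 nrw nwr mwr csb mv1
theorem tle : TleStmt := H46.tle typ hyb rtz0 nrw nwl mwl csb mv2
theorem tcr : TcrStmt := H35.tcr typ hyb rtz0 nrw nwd dza mwd crm csb mv3
theorem tsw : TswStmt := H5.tsw typ hyb nss swf vec ver msw kss sq2 sw0 mv3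
theorem ewi : EwiStmt := H27.ewi tre tle tcr tsw tsf dtt H48.jpe

/-- **the sufficiency of `SysH2` for all periods** -/
theorem su2 : Su2Stmt := H48.su2 ewi

end Pool.Agent.MWGI.Comp
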