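import Pool.Agent.MWGI.Defs
import Pool.Agent.Helper48_MWHP.Bridge
import Pool.Agent.Helper48_MWHP.Comp

/-!
# Block MWGI: the base and the bridge from the literal system
-/

set_option autoImplicit false

namespace Pool.Agent.MWGI.H48

open Pool.Agent.Helper14_MV Pool.Agent.Helper2_MV Pool.Agent.MVO Pool.Agent.MWL Pool.Agent.MWS
open Pool.Agent.MWH Pool.Agent.MWHP Pool.Agent.MWGI

/-- two letters with another common block commute -/
theorem cm2 {n : ℕ} {β : FIC} (h : BI n (RR β)) : Cm2 β := MWHP.Br.cm2_of h.f h.f'

theorem basG {n : ℕ} {β : FIC} (h : BI n (RR β)) : MWGR.BasG n β where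
  pos := h.pos
  ap := h.per
  rr := h.r
  it := h.it
  cap := MWHP.Comp.c_MWHP_Cph β (cm2 h)

theorem mono {n : ℕ} {β θ : FIC} (hle : β ≤ θ) (h : BI n (RR β)) : BI n (RR θ) where
  pos := h.pos
  per := hle _ _ h.per
  r := hle _ _ h.r
  hh := hle _ _ h.hh
  rn := hle _ _ h.rn
  l := hle _ _ h.l
  it := fun p w w' q x hm => hle _ _ (h.it p w w' q x hm)
  f := fun p q c r x y hm => hle _ _ (h.f p q c r x y hm)
  f' := fun p q c r x y hm => hle _ _ (h.f' p q c r x y hm)
  fe := fun p q w r x a b h1 h2 h3 hm => hle _ _ (h.fe p q w r x a b h1 h2 h3 hm)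
  fe' := fun p q w r x a b h1 h2 h3 hm => hle _ _ (h.fe' p q w r x a b h1 h2 h3 hm)

/-! ### the bridge -/

theorem del_flat (z : ℕ) (l : List ℕ) (h : z ∉ l) :
    l.flatMap (fun i => if i = z then [] else [i]) = l := by
  induction l with
  | nil => rfl
  | cons c l ih =>
    have h0 : ¬ c = z := fun e => h (by rw [e]; exact List.mem_cons_self)
    rw [List.flatMap_cons, if_neg h0, ih (fun h' => h (List.mem_cons_of_mem _ h'))]
    rfl

theorem del_rep (z m : ℕ) (g : ℕ → List ℕ) (hg : g z = []) :
    (List.replicate m z).flatMap g = [] := by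
  induction m with
  | zero => rfl
  | succ m ih => rw [List.replicate_succ, List.flatMap_cons, hg, ih]; rfl

theorem exists_fresh (l : List ℕ) : ∃ z : ℕ, z ∉ l := by
  refine ⟨l.sum + 1, fun h => ?_⟩
  have := List.single_le_sum (l := l) (by simp) _ h
  omega

theorem f_of_fe {n : ℕ} {β : FIC} (h : FE n 1 (RR β)) : Sys.F (RR β) := by
  intro p q c r x y hM
  by_cases hxy : x = y
  · subst hxy; exact RR.refl _
  obtain ⟨z, hz⟩ := exists_fresh (p ++ x :: y :: (q ++ x :: (c ++ y :: r)))
  have hzp : z ∉ p := fun h => hz (by simp [h])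
  have hzx : z ≠ x := fun h => hz (by simp [h])
  have hzy : z ≠ y := fun h => hz (by simp [h])
  have hzq : z ∉ q := fun h => hz (by simp [h])
  have hzc : z ∉ c := fun h => hz (by simp [h])
  have hzr : z ∉ r := fun h => hz (by simp [h])
  have h1 := h p q c r z x y hzx hzy hxy (by
    intro a ha
    have h2 := hM a ha
    simp only [List.count_append, List.count_cons, List.count_replicate] at h2 ⊢
    split_ifs at h2 ⊢ <;> omega)
  have h2 := RR.sub (fun i => if i = z then [] else [i]) h1
  simp only [List.flatMap_append, List.flatMap_cons, del_flat z p hzp, del_flat z q hzq,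
    del_flat z c hzc, del_flat z r hzr, if_neg (Ne.symm hzx), if_neg (Ne.symm hzy)] at h2
  rw [del_rep z n _ (by simp), del_rep z (n + 1) _ (by simp),
    del_rep z (n + (n - 1) * 1) _ (by simp)] at h2
  simpa using h2

theorem f'_of_fe {n : ℕ} {β : FIC} (h : FE' n 1 (RR β)) : Sys.F' (RR β) := by
  intro p q c r x y hM
  by_cases hxy : x = y
  · subst hxy; exact RR.refl _
  obtain ⟨z, hz⟩ := exists_fresh (p ++ x :: (c ++ y :: (q ++ x :: y :: r)))
  have hzp : z ∉ p := fun h => hz (by simp [h])
  have hzx : z ≠ x := fun h => hz (by simp [h])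
  have hzy : z ≠ y := fun h => hz (by simp [h])
  have hzq : z ∉ q := fun h => hz (by simp [h])
  have hzc : z ∉ c := fun h => hz (by simp [h])
  have hzr : z ∉ r := fun h => hz (by simp [h])
  have h1 := h r q c p z x y hzx hzy hxy (by
    intro a ha
    have h2 := hM a ha
    simp only [List.count_append, List.count_cons, List.count_replicate] at h2 ⊢
    split_ifs at h2 ⊢ <;> omega)
  have h2 := RR.sub (fun i => if i = z then [] else [i]) h1
  simp only [List.flatMap_append, List.flatMap_cons, del_flat z p hzp, del_flat z q hzq,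
    del_flat z c hzc, del_flat z r hzr, if_neg (Ne.symm hzx), if_neg (Ne.symm hzy)] at h2
  rw [del_rep z n _ (by simp), del_rep z (n + 1) _ (by simp),
    del_rep z (n + (n - 1) * 1) _ (by simp)] at h2
  simpa using h2

/-- `x^a y^b` to `y^b x^a` behind `xy` -/
theorem mvF' {β : FIC} (h : Sys.F' (RR β)) (p q Q : List ℕ) (x y : ℕ) :
    ∀ a b : ℕ, RR β (p ++ x :: y :: (q ++ (List.replicate a x ++ (List.replicate b y ++ Q))))
      (p ++ x :: y :: (q ++ (List.replicate b y ++ (List.replicate a x ++ Q)))) := by
  have one : ∀ (b : ℕ) (q Q : List ℕ),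
      RR β (p ++ x :: y :: (q ++ x :: (List.replicate b y ++ Q)))
        (p ++ x :: y :: (q ++ (List.replicate b y ++ x :: Q))) := by
    intro b
    induction b with
    | zero => intro q Q; exact RR.refl _
    | succ b ih =>
      intro q Q
      have h1 := h p q [] (List.replicate b y ++ Q) x y (by intro a ha; cases ha)
      have h2 := ih (q ++ [y]) Q
      rw [List.replicate_succ]
      simp only [List.append_assoc, List.cons_append, List.nil_append] at h1 h2 ⊢
      exact β.trans h1 h2
  intro a
  induction a with
  | zero => intro b; exact RR.refl _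
  | succ a ih =>
    intro b
    have h1 := ih b
    have h2 : RR β (p ++ x :: y :: (q ++ (List.replicate (a + 1) x ++ (List.replicate b y ++ Q))))
        (p ++ x :: y :: (q ++ (List.replicate a x ++ (List.replicate b y ++ x :: Q)))) := by
      have := one b (q ++ List.replicate a x) Q
      rw [List.replicate_succ']
      simpa only [List.append_assoc, List.cons_append, List.nil_append] using this
    have h3 : RR β (p ++ x :: y :: (q ++ (List.replicate a x ++ (List.replicate b y ++ x :: Q))))
        (p ++ x :: y :: (q ++ (List.replicate b y ++ (List.replicate a x ++ x :: Q)))) := by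
      clear h1 h2
      have : ∀ Q' : List ℕ, RR β
          (p ++ x :: y :: (q ++ (List.replicate a x ++ (List.replicate b y ++ Q'))))
          (p ++ x :: y :: (q ++ (List.replicate b y ++ (List.replicate a x ++ Q')))) := by
        intro Q'
        clear ih
        induction a generalizing Q' with
        | zero => exact RR.refl _
        | succ a ih2 =>
          have h4 := one b (q ++ List.replicate a x) Q'
          have h5 := ih2 (x :: Q')
          rw [List.replicate_succ']
          simp only [List.append_assoc, List.cons_append, List.nil_append] at h4 h5 ⊢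
          exact β.trans h4 h5
      exact this (x :: Q)
    have e : List.replicate (a + 1) x ++ Q = List.replicate a x ++ x :: Q := by
      rw [List.replicate_succ']; simp
    rw [e]
    exact β.trans h2 h3

/-- `x^a y^b` to `y^b x^a` before `yx` -/
theorem mvF {β : FIC} (h : Sys.F (RR β)) (p Q : List ℕ) (x y : ℕ) :
    ∀ (a b : ℕ) (q : List ℕ),
      RR β (p ++ (List.replicate a x ++ (List.replicate b y ++ (q ++ y :: x :: Q))))
      (p ++ (List.replicate b y ++ (List.replicate a x ++ (q ++ y :: x :: Q)))) := by
  have one : ∀ (b : ℕ) (p q : List ℕ),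
      RR β (p ++ x :: (List.replicate b y ++ (q ++ y :: x :: Q)))
        (p ++ (List.replicate b y ++ x :: (q ++ y :: x :: Q))) := by
    intro b
    induction b with
    | zero => intro p q; exact RR.refl _
    | succ b ih =>
      intro p q
      have h1 := h p (List.replicate b y ++ q) [] Q y x (by intro a ha; cases ha)
      have h2 := ih (p ++ [y]) q
      rw [List.replicate_succ]
      simp only [List.append_assoc, List.cons_append, List.nil_append] at h1 h2 ⊢
      exact β.trans (RR.symm h1) h2
  intro a
  induction a with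
  | zero => intro b q; exact RR.refl _
  | succ a ih =>
    intro b q
    have h1 := one b (p ++ List.replicate a x) q
    have h2 := ih b (x :: q)
    have e : ∀ R : List ℕ, List.replicate (a + 1) x ++ R = List.replicate a x ++ x :: R := by
      intro R; rw [List.replicate_succ']; simp
    rw [e, e]
    simp only [List.append_assoc, List.cons_append] at h1 h2 ⊢
    exact β.trans h1 h2

/-- `x^(n+1) y^(n+1) = y^(n+1) x^(n+1)` -/
theorem rn_of {n : ℕ} {β : FIC} (hn : 1 ≤ n) (hh : MWZ.R0 (RR β)) (it : It n (RR β))
    (hF : Sys.F (RR β)) (hF' : Sys.F' (RR β)) : MWGP.Rn n (RR β) := by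
  -- exponents
  have ex : ∀ (p q : List ℕ) (x e : ℕ), 2 ≤ e →
      RR β (p ++ (List.replicate e x ++ q)) (p ++ (List.replicate (e + n) x ++ q)) := by
    intro p q x e he
    have h1 := it p [] [] (List.replicate (e - 2) x ++ q) x (by intro c hc; simp at hc)
    have e1 : p ++ x :: ([] ++ ([] ++ x :: (List.replicate (e - 2) x ++ q))) =
        p ++ (List.replicate e x ++ q) := by
      obtain ⟨m, rfl⟩ : ∃ m, e = m + 2 := ⟨e - 2, by omega⟩
      simp [List.replicate_succ]
    have e2 : p ++ x :: ([] ++ (List.replicate n x ++ ([] ++ x :: (List.replicate (e - 2) x ++ q)))) =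
        p ++ (List.replicate (e + n) x ++ q) := by
      obtain ⟨m, rfl⟩ : ∃ m, e = m + 2 := ⟨e - 2, by omega⟩
      have h3 : m + 2 + n = 1 + (n + (1 + m)) := by omega
      rw [h3, List.replicate_add, List.replicate_add, List.replicate_add]
      simp
    rw [e1, e2] at h1
    exact h1
  have ex2 : ∀ (p q : List ℕ) (x e : ℕ), 2 ≤ e →
      RR β (p ++ (List.replicate e x ++ q)) (p ++ (List.replicate (e + 2 * n) x ++ q)) := by
    intro p q x e he
    have h1 := ex p q x e he
    have h2 := ex p q x (e + n) (by omega)
    have e3 : e + n + n = e + 2 * n := by omega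
    rw [e3] at h2
    exact β.trans h1 h2
  -- squares
  have sq : ∀ (p q : List ℕ), RR β (p ++ (List.replicate (2 * n) 0 ++ (List.replicate (2 * n) 1 ++ q)))
      (p ++ (List.replicate (2 * n) 1 ++ (List.replicate (2 * n) 0 ++ q))) := by
    intro p q
    have h1 := RR.sub (fun i => if i = 0 then List.replicate n 0 else List.replicate n 1)
      (show RR β [0, 0, 1, 1] [1, 1, 0, 0] from hh)
    simp only [List.flatMap_cons, List.flatMap_nil, if_true, one_ne_zero, if_false,
      List.append_nil] at h1
    have h2 := ((RR.refl (β := β) p).append h1).append (RR.refl q)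
    have e1 : ∀ c : ℕ, List.replicate (2 * n) c = List.replicate n c ++ List.replicate n c := by
      intro c; rw [two_mul, List.replicate_add]
    rw [e1, e1]
    simpa only [List.append_assoc] using h2
  have hd : ∀ c : ℕ, List.replicate (2 * n) c = c :: List.replicate (2 * n - 1) c := by
    intro c
    have h2 : 2 * n = (2 * n - 1) + 1 := by omega
    conv_lhs => rw [h2]
    exact List.replicate_succ
  have hd' : ∀ c : ℕ, List.replicate (2 * n) c = List.replicate (2 * n - 1) c ++ [c] := by
    intro c
    have h2 : 2 * n = (2 * n - 1) + 1 := by omega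
    conv_lhs => rw [h2]
    exact List.replicate_succ'
  have hl : ∀ c : ℕ, List.replicate (n + 1) c = List.replicate n c ++ [c] := by
    intro c
    exact List.replicate_succ'
  unfold MWGP.Rn
  -- the common word: 1^(n+1) 0^(3n+1) 1^(2n)
  -- left side
  have l1 : RR β (List.replicate (n + 1) 0 ++ List.replicate (n + 1) 1)
      (List.replicate (n + 1) 0 ++ (List.replicate (2 * n) 0 ++ (List.replicate (2 * n) 1 ++
        List.replicate (n + 1) 1))) := by
    have h1 := ex2 [] (List.replicate (n + 1) 1) 0 (n + 1) (by omega)
    have h2 := ex2 (List.replicate (n + 1 + 2 * n) 0) [] 1 (n + 1) (by omega)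
    simp only [List.append_nil, List.nil_append] at h1 h2
    have h3 := β.trans h1 h2
    have e1 : List.replicate (n + 1 + 2 * n) 0 = List.replicate (n + 1) 0 ++
        List.replicate (2 * n) 0 := List.replicate_add _ _ _
    have e2 : List.replicate (n + 1 + 2 * n) 1 = List.replicate (2 * n) 1 ++
        List.replicate (n + 1) 1 := by
      rw [Nat.add_comm, List.replicate_add]
    rw [e1, e2, List.append_assoc] at h3
    exact h3
  have l2 := sq (List.replicate (n + 1) 0) (List.replicate (n + 1) 1)
  -- now 0^(n+1) 1^(2n) 0^(2n) 1^(n+1): move 0^(2n) behind 1^(n+1)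
  have l3 : RR β (List.replicate (n + 1) 0 ++ (List.replicate (2 * n) 1 ++
      (List.replicate (2 * n) 0 ++ List.replicate (n + 1) 1)))
      (List.replicate (n + 1) 0 ++ (List.replicate (2 * n) 1 ++ (List.replicate (n + 1) 1 ++
        List.replicate (2 * n) 0))) := by
    have h1 := mvF' hF' (List.replicate n 0) (List.replicate (2 * n - 1) 1) [] 0 1 (2 * n) (n + 1)
    have e : ∀ R : List ℕ, List.replicate (n + 1) 0 ++ (List.replicate (2 * n) 1 ++ R) =
        List.replicate n 0 ++ 0 :: 1 :: (List.replicate (2 * n - 1) 1 ++ R) := by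
      intro R
      rw [hd, hl]
      simp only [List.append_assoc, List.cons_append, List.nil_append]
    rw [e, e]
    simpa only [List.append_nil] using h1
  -- 0^(n+1) 1^(n+1) (1^(2n) 0^(2n)): move 0^(n+1) behind 1^(n+1)
  have l4 : RR β (List.replicate (n + 1) 0 ++ (List.replicate (n + 1) 1 ++
      (List.replicate (2 * n) 1 ++ List.replicate (2 * n) 0)))
      (List.replicate (n + 1) 1 ++ (List.replicate (n + 1) 0 ++ (List.replicate (2 * n) 1 ++
        List.replicate (2 * n) 0))) := by
    have h1 := mvF hF [] (List.replicate (2 * n - 1) 0) 0 1 (n + 1) (n + 1)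
      (List.replicate (2 * n - 1) 1)
    have e : List.replicate (2 * n) 1 ++ List.replicate (2 * n) 0 =
        List.replicate (2 * n - 1) 1 ++ 1 :: 0 :: List.replicate (2 * n - 1) 0 := by
      rw [hd' 1, hd 0]
      simp only [List.append_assoc, List.cons_append, List.nil_append]
    rw [e]
    exact h1
  have l5 := RR.symm (sq (List.replicate (n + 1) 1 ++ List.replicate (n + 1) 0) [])
  -- right side
  have r1 : RR β (List.replicate (n + 1) 1 ++ List.replicate (n + 1) 0)
      (List.replicate (n + 1) 1 ++ (List.replicate (2 * n) 1 ++ (List.replicate (2 * n) 0 ++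
        List.replicate (n + 1) 0))) := by
    have h1 := ex2 [] (List.replicate (n + 1) 0) 1 (n + 1) (by omega)
    have h2 := ex2 (List.replicate (n + 1 + 2 * n) 1) [] 0 (n + 1) (by omega)
    simp only [List.append_nil, List.nil_append] at h1 h2
    have h3 := β.trans h1 h2
    have e1 : List.replicate (n + 1 + 2 * n) 1 = List.replicate (n + 1) 1 ++
        List.replicate (2 * n) 1 := List.replicate_add _ _ _
    have e2 : List.replicate (n + 1 + 2 * n) 0 = List.replicate (2 * n) 0 ++
        List.replicate (n + 1) 0 := by
      rw [Nat.add_comm, List.replicate_add]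
    rw [e1, e2, List.append_assoc] at h3
    exact h3
  have r2 := RR.symm (sq (List.replicate (n + 1) 1) (List.replicate (n + 1) 0))
  have r3 : RR β (List.replicate (n + 1) 1 ++ (List.replicate (2 * n) 0 ++
      (List.replicate (2 * n) 1 ++ List.replicate (n + 1) 0)))
      (List.replicate (n + 1) 1 ++ (List.replicate (2 * n) 0 ++ (List.replicate (n + 1) 0 ++
        List.replicate (2 * n) 1))) := by
    have h1 := mvF' hF' (List.replicate n 1) (List.replicate (2 * n - 1) 0) [] 1 0 (2 * n) (n + 1)
    have e : ∀ R : List ℕ, List.replicate (n + 1) 1 ++ (List.replicate (2 * n) 0 ++ R) =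
        List.replicate n 1 ++ 1 :: 0 :: (List.replicate (2 * n - 1) 0 ++ R) := by
      intro R
      rw [hd, hl]
      simp only [List.append_assoc, List.cons_append, List.nil_append]
    rw [e, e]
    simpa only [List.append_nil] using h1
  -- compose
  have a1 : RR β (List.replicate (n + 1) 0 ++ List.replicate (n + 1) 1)
      (List.replicate (n + 1) 0 ++ (List.replicate (n + 1) 1 ++
      (List.replicate (2 * n) 1 ++ List.replicate (2 * n) 0))) := by
    have e : List.replicate (n + 1) 1 ++ (List.replicate (2 * n) 1 ++ List.replicate (2 * n) 0) =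
        List.replicate (2 * n) 1 ++ (List.replicate (n + 1) 1 ++ List.replicate (2 * n) 0) := by
      rw [← List.append_assoc, ← List.append_assoc, ← List.replicate_add, ← List.replicate_add,
        Nat.add_comm]
    rw [e]
    exact β.trans (β.trans l1 l2) l3
  have a2 : RR β (List.replicate (n + 1) 0 ++ List.replicate (n + 1) 1)
      (List.replicate (n + 1) 1 ++ (List.replicate (n + 1) 0 ++ (List.replicate (2 * n) 0 ++
        List.replicate (2 * n) 1))) := by
    have l5' : RR β (List.replicate (n + 1) 1 ++ (List.replicate (n + 1) 0 ++ (List.replicate (2 * n) 1 ++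
        List.replicate (2 * n) 0)))
      (List.replicate (n + 1) 1 ++ (List.replicate (n + 1) 0 ++ (List.replicate (2 * n) 0 ++
        List.replicate (2 * n) 1))) := by
      simpa only [List.append_assoc, List.append_nil] using l5
    exact β.trans (β.trans a1 l4) l5'
  have a3 : RR β (List.replicate (n + 1) 1 ++ List.replicate (n + 1) 0)
      (List.replicate (n + 1) 1 ++ (List.replicate (n + 1) 0 ++ (List.replicate (2 * n) 0 ++
        List.replicate (2 * n) 1))) := by
    have e : List.replicate (n + 1) 0 ++ (List.replicate (2 * n) 0 ++ List.replicate (2 * n) 1) =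
        List.replicate (2 * n) 0 ++ (List.replicate (n + 1) 0 ++ List.replicate (2 * n) 1) := by
      rw [← List.append_assoc, ← List.append_assoc, ← List.replicate_add, ← List.replicate_add,
        Nat.add_comm]
    rw [e]
    exact β.trans (β.trans r1 r2) r3
  exact β.trans a2 (RR.symm a3)

/-- the bridge -/
theorem bi_of {n : ℕ} {β : FIC} (hn : 1 ≤ n) (hP : MWZ.Per n (RR β)) (h : SysH2 n (RR β)) :
    BI n (RR β) := by
  obtain ⟨h1, h2, h3, _, h5, h6, h7⟩ := h
  have hF := f_of_fe h6
  have hF' := f'_of_fe h7
  exact ⟨hn, hP, h1, h2, rn_of hn h2 h5 hF hF', h3, h5, hF, hF', h6, h7⟩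

end Pool.Agent.MWGI.H48
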