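import Pool.Agent.MWGI.StmtsA

/-!
# Squad MWGR, row PRM: a factor of heavy letters may be permuted
-/

set_option autoImplicit false

namespace Pool.Agent.MWGI.H5

open Pool.Agent.Helper14_MV Pool.Agent.Helper2_MV Pool.Agent.MVO Pool.Agent.MWL Pool.Agent.MWS
  Pool.Agent.MWH
open Pool.Agent.MWGI

variable {k : ℕ}

theorem ok1_perm {H pre suf l l' : List ℕ} (h : Ok1 k H pre suf l) (hp : l.Perm l') :
    Ok1 k H pre suf l' := by
  refine ⟨h.nd, fun x hx => ?_, fun a ha haH => ?_, h.muOf (fun x hx => by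
    rw [← hp.count_eq x]
    exact h.hv x hx) (fun a _ => (hp.count_eq a).symm)⟩
  · rw [← hp.count_eq x]
    exact h.hv x hx
  · rw [← hp.count_eq a]
    exact h.lt a (hp.mem_iff.2 ha) haH

/-- **PRM** -/
theorem prm (hhhl : HhlStmt) : PrmStmt := by
  intro k n β hβ H pre suf A P P' D hok hP hperm
  have hper : ∀ (A P P' : List ℕ), P.Perm P' → (A ++ (P ++ D)).Perm (A ++ (P' ++ D)) :=
    fun A P P' h => (h.append_right D).append_left A
  refine ⟨ok1_perm hok (hper A P P' hperm), ?_⟩
  induction hperm generalizing A with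
  | nil => exact RR.refl _
  | cons x hp ih =>
    rename_i l₁ l₂
    have e1 : ∀ l : List ℕ, A ++ (x :: l ++ D) = (A ++ [x]) ++ (l ++ D) := fun l => by simp
    have h1 := ih (A ++ [x]) (by rw [← e1]; exact hok)
      (fun c hc => hP c (List.mem_cons_of_mem _ hc))
    rw [e1, e1]
    exact h1
  | swap x y l =>
    have e1 : ∀ a b : ℕ, A ++ (a :: b :: l ++ D) = A ++ a :: b :: (l ++ D) := fun a b => by simp
    rw [e1] at hok
    rw [e1, e1]
    exact hhhl n β hβ H pre suf A (l ++ D) y x hok (hP y (by simp)) (hP x (by simp))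
  | trans h1 h2 ih1 ih2 =>
    exact β.trans (ih1 A hok hP) (ih2 A (ok1_perm hok (hper A _ _ h1))
      (fun c hc => hP c (h1.mem_iff.2 hc)))

end Pool.Agent.MWGI.H5
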