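import Pool.Agent.MWGI.StmtsA

/-!
# Row ROK: the realisation is an admissible block
-/

namespace Pool.Agent.MWGI.H25

open Pool.Agent.Helper14_MV Pool.Agent.Helper2_MV Pool.Agent.MVO Pool.Agent.MWL Pool.Agent.MWS
  Pool.Agent.MWH Pool.Agent.MWGI

variable {k : ℕ}

theorem GG_count {S : List ℕ} {g : ℕ → ℕ} {a : ℕ} (h : a ∉ S) : (GG S g).count a = 0 := by
  rw [List.count_eq_zero]
  intro hm
  unfold GG at hm
  obtain ⟨x, hx, ha⟩ := List.mem_flatMap.1 hm
  rw [List.eq_of_mem_replicate ha] at h
  exact h hx

/-- the part of a token -/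
def hd (n : ℕ) (H : List ℕ) (Λ : ℕ → ℕ → ℕ) (N : ℕ → ℕ) (O : ℕ → Bool) (t : ℕ) : List ℕ :=
  if t % 3 = 0 then outL n H Λ O (t / 3)
      else if t % 3 = 1 then List.replicate (2 * n) (t / 3)
      else List.replicate (n + N (t / 3)) (t / 3)

theorem real_cons (n : ℕ) (H : List ℕ) (Λ : ℕ → ℕ → ℕ) (N : ℕ → ℕ) (O : ℕ → Bool) (t : ℕ)
    (T : List ℕ) : real n H Λ N O (t :: T) = hd n H Λ N O t ++
      real n H Λ N (if t % 3 = 0 then O else Function.update O (t / 3) (decide (t % 3 = 1))) T :=
  rfl

theorem real_count (n : ℕ) (H : List ℕ) (Λ : ℕ → ℕ → ℕ) (N : ℕ → ℕ) (a : ℕ) (ha : a ∉ H)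
    (T : List ℕ) : ∀ O : ℕ → Bool, (∀ t ∈ T, t % 3 = 0 ∨ t / 3 ∈ H) →
      (real n H Λ N O T).count a = T.count (3 * a) := by
  induction T with
  | nil => intro O _; rfl
  | cons t T ih =>
    intro O h
    rw [real_cons, List.count_append, ih _ (fun s hs => h s (List.mem_cons_of_mem _ hs)),
      List.count_cons]
    have hH : ∀ O : ℕ → Bool, a ∉ H.filter O := fun O hm => ha (List.mem_filter.1 hm).1
    unfold hd
    by_cases h0 : t % 3 = 0
    · rw [if_pos h0]
      unfold outL
      rw [List.count_append, List.count_cons, GG_count (hH O), GG_count (hH O)]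
      by_cases h1 : t / 3 = a
      · have h2 : t = 3 * a := by omega
        rw [h1, h2]
        simp
        omega
      · have h2 : t ≠ 3 * a := by omega
        rw [if_neg (by simpa using h1), if_neg (by simpa using h2)]
        omega
    · rw [if_neg h0]
      have h2 : t ≠ 3 * a := by omega
      have h3 : t / 3 ∈ H := (h t List.mem_cons_self).resolve_left h0
      have h4 : t / 3 ≠ a := by
        intro h5
        rw [h5] at h3
        exact ha h3
      rw [if_neg (show ¬ ((t == 3 * a) = true) by simpa using h2)]
      by_cases h1 : t % 3 = 1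
      · rw [if_pos h1, List.count_replicate, if_neg (by simpa using h4)]
        omega
      · rw [if_neg h1, List.count_replicate, if_neg (by simpa using h4)]
        omega

theorem real_open (n : ℕ) (H : List ℕ) (Λ : ℕ → ℕ → ℕ) (N : ℕ → ℕ) (x : ℕ)
    (T : List ℕ) : ∀ O : ℕ → Bool, 3 * x + 1 ∈ T → 2 * n ≤ (real n H Λ N O T).count x := by
  induction T with
  | nil => intro O h; exact absurd h List.not_mem_nil
  | cons t T ih =>
    intro O h
    rw [real_cons, List.count_append]
    rcases List.mem_cons.1 h with h1 | h1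
    · have h2 : t % 3 = 1 := by omega
      have h3 : t / 3 = x := by omega
      unfold hd
      rw [if_neg (by omega), if_pos h2, h3, List.count_replicate_self]
      omega
    · have := ih (if t % 3 = 0 then O else Function.update O (t / 3) (decide (t % 3 = 1))) h1
      omega

theorem real_close (n : ℕ) (H : List ℕ) (Λ : ℕ → ℕ → ℕ) (N : ℕ → ℕ) (x : ℕ)
    (T : List ℕ) : ∀ O : ℕ → Bool, 3 * x + 2 ∈ T → n ≤ (real n H Λ N O T).count x := by
  induction T with
  | nil => intro O h; exact absurd h List.not_mem_nil
  | cons t T ih =>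
    intro O h
    rw [real_cons, List.count_append]
    rcases List.mem_cons.1 h with h1 | h1
    · have h3 : t / 3 = x := by omega
      unfold hd
      rw [if_neg (by omega), if_neg (by omega), h3, List.count_replicate_self]
      omega
    · have := ih (if t % 3 = 0 then O else Function.update O (t / 3) (decide (t % 3 = 1))) h1
      omega

theorem rok (_hRAP : RapStmt) : RokStmt := by
  intro n H Λ N hn hH
  have hii : ∀ (T : List ℕ) (O : ℕ → Bool) (a : ℕ), a ∉ H → (∀ t ∈ T, t % 3 = 0 ∨ t / 3 ∈ H) →
      (a ∈ real n H Λ N O T ↔ 3 * a ∈ T) := by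
    intro T O a ha h
    rw [← List.count_pos_iff, ← List.count_pos_iff, real_count n H Λ N a ha T O h]
  refine ⟨?_, hii, ?_, ?_⟩
  · intro k pre suf T hT
    have hTt : ∀ t ∈ T, t % 3 = 0 ∨ t / 3 ∈ H := by
      intro t ht
      rcases hT.lt t ht with h | h
      · exact Or.inl h.1
      · exact Or.inr h.2
    have hv2 : ∀ x ∈ H, 2 ≤ (real n H Λ N O0 T).count x := by
      intro x hx
      obtain ⟨T1, T2, T3, hTe⟩ := hT.hv x hx
      have h1 : 3 * x + 1 ∈ T := by
        rw [hTe]
        exact List.mem_append_right _ List.mem_cons_self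
      have := real_open n H Λ N x T O0 h1
      omega
    refine ⟨hH, hv2, ?_, ?_⟩
    · intro a ha haH
      have h3a : 3 * a ∈ T := (hii T O0 a haH hTt).1 ha
      refine ⟨?_, ?_⟩
      · rw [real_count n H Λ N a haH T O0 hTt]
        exact List.count_eq_one_of_mem hT.nd h3a
      · have e : 3 * a / 3 = a := by omega
        rcases hT.lt _ h3a with h | h
        · rw [e] at h
          exact h.2.2
        · exact absurd (by omega) h.1
    · intro z hz hN
      rw [List.count_append, List.count_append]
      by_cases hzH : z ∈ H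
      · have := hv2 z hzH
        omega
      rcases hT.mu z hz hN with h | h | h
      · exact absurd h hzH
      · have h1 := (hii T O0 z hzH hTt).2 h
        have h2 := List.count_pos_iff.2 h1
        rw [List.mem_append] at hz
        rcases hz with h3 | h3
        · have h3 := List.count_pos_iff.2 h3
          omega
        · have h3 := List.count_pos_iff.2 h3
          omega
      · rw [List.count_append] at h
        omega
  · intro T O x hx
    rw [← List.count_pos_iff]
    have := real_open n H Λ N x T O hx
    omega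
  · intro T O x hx
    rw [← List.count_pos_iff]
    have := real_close n H Λ N x T O hx
    omega

end Pool.Agent.MWGI.H25
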