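import Pool.Agent.MWGI.StmtsA

set_option autoImplicit false

/-!
# Squad MWGR, row RT3 (helper46): `a, open x` to `open x, a`
-/

namespace Pool.Agent.MWGI.H46

open Pool.Agent.Helper14_MV Pool.Agent.Helper2_MV Pool.Agent.MVO Pool.Agent.MWL Pool.Agent.MWS
  Pool.Agent.MWH Pool.Agent.MWGI

variable {k : ℕ}

variable {n : ℕ} {H : List ℕ} {Λ : ℕ → ℕ → ℕ} {N : ℕ → ℕ}

theorem real_light (O : ℕ → Bool) (a : ℕ) (T : List ℕ) :
    real n H Λ N O ((3 * a) :: T) = outL n H Λ O a ++ real n H Λ N O T := by
  have h1 : 3 * a % 3 = 0 := by omega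
  have h2 : 3 * a / 3 = a := by omega
  rw [real, if_pos h1, if_pos h1, h2]

theorem real_open (O : ℕ → Bool) (x : ℕ) (T : List ℕ) :
    real n H Λ N O ((3 * x + 1) :: T) =
      List.replicate (2 * n) x ++ real n H Λ N (Function.update O x true) T := by
  have h1 : ¬ (3 * x + 1) % 3 = 0 := by omega
  have h2 : (3 * x + 1) % 3 = 1 := by omega
  have h3 : (3 * x + 1) / 3 = x := by omega
  rw [real, if_neg h1, if_pos h2, if_neg h1, h3, h2]
  rfl

theorem opn_light (O : ℕ → Bool) (a : ℕ) (T : List ℕ) : opn O ((3 * a) :: T) = opn O T := by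
  have h1 : 3 * a % 3 = 0 := by omega
  rw [opn, if_pos h1]

theorem opn_open (O : ℕ → Bool) (x : ℕ) (T : List ℕ) :
    opn O ((3 * x + 1) :: T) = opn (Function.update O x true) T := by
  have h1 : ¬ (3 * x + 1) % 3 = 0 := by omega
  have h2 : (3 * x + 1) % 3 = 1 := by omega
  have h3 : (3 * x + 1) / 3 = x := by omega
  rw [opn, if_neg h1, h3, h2]
  rfl

theorem GG_cons (x : ℕ) (S : List ℕ) (g : ℕ → ℕ) :
    GG (x :: S) g = List.replicate (g x) x ++ GG S g := rfl

theorem mem_GG {S : List ℕ} {g : ℕ → ℕ} {c : ℕ} (h : c ∈ GG S g) : c ∈ S := by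
  unfold GG at h
  rw [List.mem_flatMap] at h
  obtain ⟨y, hy, hc⟩ := h
  rw [List.eq_of_mem_replicate hc]
  exact hy

theorem GG_perm {S S' : List ℕ} (h : S.Perm S') (g : ℕ → ℕ) : (GG S g).Perm (GG S' g) :=
  h.flatMap_right _

/-- one more open letter -/
theorem filter_upd {H : List ℕ} (hH : H.Nodup) (O : ℕ → Bool) {x : ℕ} (hx : x ∈ H)
    (hO : O x = false) : (H.filter (Function.update O x true)).Perm (x :: H.filter O) := by
  induction H with
  | nil => exact absurd hx List.not_mem_nil
  | cons y H ih =>
    obtain ⟨hy, hH'⟩ := List.nodup_cons.1 hH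
    by_cases hyx : y = x
    · subst hyx
      have h1 : H.filter (Function.update O y true) = H.filter O := by
        apply List.filter_congr
        intro z hz
        rw [Function.update_of_ne]
        rintro rfl
        exact hy hz
      rw [List.filter_cons_of_pos (by rw [Function.update_self]), h1,
        List.filter_cons_of_neg (by rw [hO]; decide)]
    · have hx' : x ∈ H := by
        rcases List.mem_cons.1 hx with h | h
        · exact absurd h.symm hyx
        · exact h
      have h2 := ih hH' hx'
      by_cases hOy : O y = true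
      · rw [List.filter_cons_of_pos (by rw [Function.update_of_ne hyx]; exact hOy),
          List.filter_cons_of_pos hOy]
        exact (h2.cons y).trans (List.Perm.swap x y _)
      · rw [List.filter_cons_of_neg (by rw [Function.update_of_ne hyx]; exact hOy),
          List.filter_cons_of_neg hOy]
        exact h2

/-- insertion of heavy letters -/
theorem ok1_ins {H pre suf A D : List ℕ} {x : ℕ} (m : ℕ) (h : Ok1 k H pre suf (A ++ D))
    (hx : x ∈ H) : Ok1 k H pre suf (A ++ (List.replicate m x ++ D)) := by
  have hv2 : ∀ y ∈ H, 2 ≤ (A ++ (List.replicate m x ++ D)).count y := by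
    intro y hy
    have h1 := h.hv y hy
    rw [List.count_append] at h1
    rw [List.count_append, List.count_append]
    omega
  refine ⟨h.nd, hv2, ?_, h.muOf hv2 (fun a ha => by
    rw [List.count_append, List.count_append, List.count_append, List.count_replicate,
      if_neg (by simpa using (fun e : x = a => ha (e ▸ hx))), Nat.zero_add])⟩
  · intro a ha haH
    have hax : a ≠ x := fun h' => haH (h' ▸ hx)
    have ha' : a ∈ A ++ D := by
      rw [List.mem_append, List.mem_append] at ha
      rw [List.mem_append]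
      rcases ha with ha | ha | ha
      · exact Or.inl ha
      · exact absurd (List.eq_of_mem_replicate ha) hax
      · exact Or.inr ha
    obtain ⟨h1, h2⟩ := h.lt a ha' haH
    refine ⟨?_, h2⟩
    rw [List.count_append] at h1
    rw [List.count_append, List.count_append, List.count_replicate, if_neg (by simpa using hax.symm)]
    omega

/-- row RT3 -/
theorem rt3 (hprm : PrmStmt) (hexl : ExlStmt) (_hexs : ExsStmt) (hrap : RapStmt)
    (hrok : RokStmt) : Rt3Stmt := by
  intro k n β η hB hle H pre suf T1 T2 x a Λ N hH hT hT' hΛ hLE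
  have hn := hB.pos
  obtain ⟨hr1, hr2, hr3⟩ := hrap
  obtain ⟨hk1, -, -, hk4⟩ := hrok n H Λ N hn hH
  have hx : x ∈ H := by
    rcases hT.lt (3 * x + 1) (by simp) with h | h
    · omega
    · have h3 : (3 * x + 1) / 3 = x := by omega
      rw [h3] at h
      exact h.2
  have hne : ¬ (3 * x + 1 ∈ T1) := by
    intro h
    have h1 := hT.nd
    rw [List.nodup_append] at h1
    exact h1.2.2 _ h _ (List.mem_cons_of_mem _ List.mem_cons_self) rfl
  have hOx : opn O0 T1 x = false := by
    by_contra hc
    rw [Bool.not_eq_false] at hc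
    exact hne ((hr3 H pre suf T1 _ hT x hx).1 hc).1
  have hx2 : 3 * x + 2 ∈ T2 := by
    have h1 := hr3 H pre suf (T1 ++ [3 * a, 3 * x + 1]) T2
      (by
        rw [List.append_assoc]
        exact hT) x hx
    rw [hr2, opn_light, opn_open, opn] at h1
    exact (h1.1 (by rw [Function.update_self])).2
  have hxR : x ∈ real n H Λ N (Function.update (opn O0 T1) x true) T2 := hk4 T2 _ x hx2
  have hW1 : real n H Λ N O0 (T1 ++ (3 * a) :: (3 * x + 1) :: T2) =
      real n H Λ N O0 T1 ++ (outL n H Λ (opn O0 T1) a ++ (List.replicate (2 * n) x ++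
        real n H Λ N (Function.update (opn O0 T1) x true) T2)) := by
    rw [hr1, real_light, real_open]
  have hW2 : real n H Λ N O0 (T1 ++ (3 * x + 1) :: (3 * a) :: T2) =
      real n H Λ N O0 T1 ++ (List.replicate (2 * n) x ++
        (outL n H Λ (Function.update (opn O0 T1) x true) a ++
          real n H Λ N (Function.update (opn O0 T1) x true) T2)) := by
    rw [hr1, real_open, real_light]
  have hok := hk1 pre suf _ hT
  rw [hW1] at hok
  rw [hW1, hW2]
  have hP := filter_upd hH (opn O0 T1) hx hOx
  unfold outL at hok ⊢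
  generalize hSd : H.filter (Function.update (opn O0 T1) x true) = S' at hP ⊢
  generalize real n H Λ N (Function.update (opn O0 T1) x true) T2 = R2 at *
  generalize hS : H.filter (opn O0 T1) = S at *
  generalize real n H Λ N O0 T1 = R1 at *
  have hSH : ∀ c ∈ S, c ∈ H := fun c hc => by
    rw [← hS] at hc
    exact (List.mem_filter.1 hc).1
  generalize hg : (fun x => n + Λ x a) = g at *
  generalize hg' : (fun x => n + (n - 1) * Λ x a) = g' at *
  have hgx : g x = n + Λ x a := by rw [← hg]
  have hgx' : g' x = n + (n - 1) * Λ x a := by rw [← hg']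
  obtain ⟨q, hq⟩ : ∃ q, Λ x a = n * q := (Nat.modEq_zero_iff_dvd.1 hΛ)
  -- (1) `x^(2n)` directly behind `a`
  have e1 : R1 ++ (GG S g ++ a :: GG S g' ++ (List.replicate (2 * n) x ++ R2)) =
      (R1 ++ (GG S g ++ [a])) ++ ((GG S g' ++ List.replicate (2 * n) x) ++ R2) := by
    simp only [List.append_assoc, List.cons_append, List.nil_append]
  rw [e1] at hok ⊢
  obtain ⟨ok1, r1⟩ := hprm n β hB H pre suf (R1 ++ (GG S g ++ [a])) _
    (List.replicate (2 * n) x ++ GG S g') R2 hok
    (by
      intro c hc
      rcases List.mem_append.1 hc with hc | hc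
      · exact hSH c (mem_GG hc)
      · rw [List.eq_of_mem_replicate hc]
        exact hx) List.perm_append_comm
  refine η.trans (hle _ _ r1) ?_
  -- (2) insertion of `x^n` before `a`
  obtain ⟨s, hs⟩ : ∃ s, 2 * n = s + 2 := ⟨2 * n - 2, by omega⟩
  have e2 : (R1 ++ (GG S g ++ [a])) ++ ((List.replicate (2 * n) x ++ GG S g') ++ R2) =
      (R1 ++ GG S g) ++ a :: x :: x :: (List.replicate s x ++ (GG S g' ++ R2)) := by
    rw [hs, List.replicate_succ, List.replicate_succ]
    simp only [List.append_assoc, List.cons_append, List.nil_append]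
  rw [e2] at ok1 ⊢
  refine η.trans (hLE _ _ ok1) ?_
  have ok2 := ok1_ins n ok1 hx
  -- (3) the power before `a`
  obtain ⟨t, ht⟩ : ∃ t, n = t + 1 := ⟨n - 1, by omega⟩
  have e3 : (R1 ++ GG S g) ++ (List.replicate n x ++ a :: x :: x ::
      (List.replicate s x ++ (GG S g' ++ R2))) =
      (R1 ++ (GG S g ++ [x])) ++ (List.replicate t x ++ (a :: (List.replicate (2 * n) x ++
        (GG S g' ++ R2)))) := by
    rw [hs, List.replicate_succ, List.replicate_succ, ht, List.replicate_succ]
    simp only [List.append_assoc, List.cons_append, List.nil_append]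
  rw [e3] at ok2 ⊢
  obtain ⟨ok3, r3⟩ := hexl n β hB H pre suf (R1 ++ (GG S g ++ [x]))
    (a :: (List.replicate (2 * n) x ++ (GG S g' ++ R2))) x t (2 * n + n + n * q - 1) ok2 hx
    (by simp) (by
      rw [List.mem_cons, List.mem_append, List.mem_append]
      exact Or.inr (Or.inr (Or.inr hxR))) (by
      have h1 : 2 * n + n + n * q - 1 = t + n * (q + 2) := by
        rw [ht]
        ring_nf
        omega
      rw [h1]
      have h2 : t ≡ t + 0 [MOD n] := by rw [Nat.add_zero]
      refine h2.trans (Nat.ModEq.add_left t ?_)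
      exact (Nat.modEq_zero_iff_dvd.2 (dvd_mul_right n (q + 2))).symm)
  refine η.trans (hle _ _ r3) ?_
  -- (4) the power behind `a`
  have e4 : (R1 ++ (GG S g ++ [x])) ++ (List.replicate (2 * n + n + n * q - 1) x ++
      (a :: (List.replicate (2 * n) x ++ (GG S g' ++ R2)))) =
      (R1 ++ (GG S g ++ (List.replicate (2 * n + g x) x ++ [a]))) ++
        (List.replicate (2 * n) x ++ (GG S g' ++ R2)) := by
    have h1 : 2 * n + g x = (2 * n + n + n * q - 1) + 1 := by
      rw [hgx, hq]
      omega
    rw [h1, List.replicate_succ]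
    simp only [List.append_assoc, List.cons_append, List.nil_append]
  rw [e4] at ok3 ⊢
  obtain ⟨ok4, r4⟩ := hexl n β hB H pre suf
    (R1 ++ (GG S g ++ (List.replicate (2 * n + g x) x ++ [a]))) (GG S g' ++ R2) x (2 * n) (g' x)
    ok3 hx (by
      rw [List.mem_append, List.mem_append, List.mem_append]
      refine Or.inr (Or.inr (Or.inl (List.mem_replicate.2 ⟨?_, rfl⟩)))
      omega) (List.mem_append_right _ hxR) (by
      rw [hgx', hq]
      have h1 : 2 * n ≡ 0 [MOD n] := Nat.modEq_zero_iff_dvd.2 (dvd_mul_left n 2)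
      have h2 : n + (n - 1) * (n * q) ≡ 0 [MOD n] := by
        apply Nat.modEq_zero_iff_dvd.2
        have h3 : n + (n - 1) * (n * q) = n * (1 + (n - 1) * q) := by ring
        rw [h3]
        exact dvd_mul_right _ _
      exact h1.trans h2.symm)
  refine η.trans (hle _ _ r4) ?_
  -- (5) the factor behind `a`
  have e5 : (R1 ++ (GG S g ++ (List.replicate (2 * n + g x) x ++ [a]))) ++
      (List.replicate (g' x) x ++ (GG S g' ++ R2)) =
      (R1 ++ (GG S g ++ (List.replicate (2 * n + g x) x ++ [a]))) ++
      ((List.replicate (g' x) x ++ GG S g') ++ R2) := by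
    simp only [List.append_assoc]
  rw [e5] at ok4 ⊢
  obtain ⟨ok5, r5⟩ := hprm n β hB H pre suf
    (R1 ++ (GG S g ++ (List.replicate (2 * n + g x) x ++ [a]))) _ (GG S' g') R2 ok4
    (by
      intro c hc
      rcases List.mem_append.1 hc with hc | hc
      · rw [List.eq_of_mem_replicate hc]
        exact hx
      · exact hSH c (mem_GG hc))
    (by
      rw [← GG_cons]
      exact (GG_perm hP g').symm)
  refine η.trans (hle _ _ r5) ?_
  -- (6) the factor before `a`
  have e6 : (R1 ++ (GG S g ++ (List.replicate (2 * n + g x) x ++ [a]))) ++ (GG S' g' ++ R2) =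
      R1 ++ ((GG S g ++ List.replicate (2 * n + g x) x) ++ (a :: (GG S' g' ++ R2))) := by
    simp only [List.append_assoc, List.cons_append, List.nil_append]
  rw [e6] at ok5 ⊢
  obtain ⟨-, r6⟩ := hprm n β hB H pre suf R1 _ (List.replicate (2 * n) x ++ GG S' g)
    (a :: (GG S' g' ++ R2)) ok5
    (by
      intro c hc
      rcases List.mem_append.1 hc with hc | hc
      · exact hSH c (mem_GG hc)
      · rw [List.eq_of_mem_replicate hc]
        exact hx)
    (by
      have h1 : (List.replicate (2 * n) x ++ GG S' g).Perm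
          (List.replicate (2 * n) x ++ (List.replicate (g x) x ++ GG S g)) := by
        rw [← GG_cons]
        exact (GG_perm hP g).append_left _
      refine List.Perm.trans ?_ h1.symm
      rw [← List.append_assoc, List.replicate_append_replicate]
      exact List.perm_append_comm)
  have e7 : R1 ++ ((List.replicate (2 * n) x ++ GG S' g) ++ (a :: (GG S' g' ++ R2))) =
      R1 ++ (List.replicate (2 * n) x ++ (GG S' g ++ a :: GG S' g' ++ R2)) := by
    simp only [List.append_assoc, List.cons_append]
  rw [e7] at r6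
  exact hle _ _ r6

end Pool.Agent.MWGI.H46
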