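import Pool.Agent.Helper48_MWGI.HHL
import Pool.Agent.Helper48_MWGI.PRM
import Pool.Agent.Helper48_MWGI.INL
import Pool.Agent.Helper48_MWGI.EXL
import Pool.Agent.Helper48_MWGI.EXS
import Pool.Agent.Helper48_MWGI.RAP
import Pool.Agent.Helper48_MWGI.ROK
import Pool.Agent.Helper48_MWGI.RZE
import Pool.Agent.Helper48_MWGI.RT1
import Pool.Agent.Helper48_MWGI.RT2
import Pool.Agent.Helper48_MWGI.RT3
import Pool.Agent.Helper48_MWGI.RT4
import Pool.Agent.Helper48_MWGI.RT5
import Pool.Agent.Helper48_MWGI.BBL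
import Pool.Agent.Helper30_MWS.BFX
import Pool.Agent.Helper26_MWS.LBB

/-!
# Block MWGI, part A: the rows without hypotheses
-/

set_option autoImplicit false

namespace Pool.Agent.MWGI.A

theorem hhl : HhlStmt := H58.hhl
theorem prm : PrmStmt := H5.prm hhl
theorem inl : InlStmt := H43.inl
theorem exl : ExlStmt := H44.exl inl
theorem exs : ExsStmt := H19.exs prm exl
theorem rap : RapStmt := H19.rap
theorem rok : RokStmt := H25.rok rap
theorem rze : RzeStmt := H8.rze hhl prm inl exl exs rap rok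
theorem rt1 : Rt1Stmt := H44.rt1 prm rap rok
theorem rt2 : Rt2Stmt := H1.rt2 prm exl exs rap rok
theorem rt3 : Rt3Stmt := H46.rt3 prm exl exs rap rok
theorem rt4 : Rt4Stmt := H95.rt4 prm exs rap rok
theorem rt5 : Rt5Stmt := H98.rt5 prm exl exs rap rok
theorem bbl : BblStmt :=
  H81.bbl (MWS.H26.lbb MWS.H30.bfx) MWS.H30.bfx rze rt1 rt2 rt3 rt4 rt5

end Pool.Agent.MWGI.A
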