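import Pool.Agent.MWGI.StmtsA

/-!
# Block MWGI, row HHL: two neighbouring heavy letters commute
-/

set_option autoImplicit false

namespace Pool.Agent.MWGI.H58

open Pool.Agent.Helper14_MV Pool.Agent.Helper2_MV Pool.Agent.MVO Pool.Agent.MWL Pool.Agent.MWS
  Pool.Agent.MWH Pool.Agent.MWGI

variable {k : ℕ}

theorem flatMap_rep (g : ℕ → List ℕ) (m c x : ℕ) (h : g c = [x]) :
    (List.replicate m c).flatMap g = List.replicate m x := by
  induction m with
  | zero => rfl
  | succ m ih => rw [List.replicate_succ, List.flatMap_cons, ih, h, List.replicate_succ]; rfl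

/-- a letter with another occurrence in the block may be replaced by `n + 1` letters -/
theorem thick {n : ℕ} {β : FIC} (hB : BI n (RR β)) (p A D s : List ℕ) (x : ℕ) (h : x ∈ A ∨ x ∈ D)
    (hml : ∀ c ∈ A ++ D, 2 ≤ (p ++ (A ++ x :: (D ++ s))).count c) :
    RR β (p ++ (A ++ x :: (D ++ s))) (p ++ (A ++ (List.replicate (n + 1) x ++ (D ++ s)))) := by
  rcases h with h | h
  · obtain ⟨A1, A2, rfl⟩ := List.append_of_mem h
    have h1 := hB.it (p ++ A1) A2 [] (D ++ s) x (by
      intro c hc
      have h0 := hml c (by
        rw [List.append_nil] at hc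
        simp [hc])
      simpa [List.append_assoc] using h0)
    have e : p ++ A1 ++ x :: (A2 ++ (List.replicate n x ++ ([] ++ x :: (D ++ s)))) =
        p ++ (A1 ++ x :: A2 ++ (List.replicate (n + 1) x ++ (D ++ s))) := by
      rw [List.replicate_succ']; simp
    rw [e] at h1
    simpa [List.append_assoc] using h1
  · obtain ⟨D1, D2, rfl⟩ := List.append_of_mem h
    have h1 := hB.it (p ++ A) [] D1 (D2 ++ s) x (by
      intro c hc
      have h0 := hml c (by
        rw [List.nil_append] at hc
        simp [hc])
      simpa [List.append_assoc] using h0)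
    have e : p ++ A ++ x :: ([] ++ (List.replicate n x ++ (D1 ++ x :: (D2 ++ s)))) =
        p ++ (A ++ (List.replicate (n + 1) x ++ (D1 ++ x :: D2 ++ s))) := by
      rw [List.replicate_succ]; simp
    rw [e] at h1
    simpa [List.append_assoc] using h1

/-- both letters behind -/
theorem caseF {n : ℕ} {β : FIC} (hB : BI n (RR β)) (P D suf : List ℕ) (x y : ℕ) (hxy : x ≠ y)
    (hx : x ∈ D) (hy : y ∈ D)
    (hml : ∀ c ∈ D, 2 ≤ (P ++ x :: y :: (D ++ suf)).count c) :
    RR β (P ++ x :: y :: (D ++ suf)) (P ++ y :: x :: (D ++ suf)) := by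
  obtain ⟨D1, D2, hD⟩ := List.append_of_mem hx
  have hy2 : y ∈ D1 ∨ y ∈ D2 := by
    rw [hD, List.mem_append, List.mem_cons] at hy
    rcases hy with h | h | h
    · exact Or.inl h
    · exact absurd h.symm hxy
    · exact Or.inr h
  rcases hy2 with hy2 | hy2
  · obtain ⟨P1, c, hP1⟩ := List.append_of_mem hy2
    have h := hB.f P P1 c (D2 ++ suf) y x (by
      intro a ha
      have h1 := hml a (by rw [hD, hP1]; simp [ha])
      rw [hD, hP1] at h1
      simp only [List.append_assoc, List.cons_append, List.count_append, List.count_cons] at h1 ⊢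
      omega)
    rw [hD, hP1]
    have h2 := RR.symm h
    simpa only [List.append_assoc, List.cons_append] using h2
  · obtain ⟨c, Q, hQ⟩ := List.append_of_mem hy2
    have h := hB.f P D1 c (Q ++ suf) x y (by
      intro a ha
      have h1 := hml a (by rw [hD, hQ]; simp [ha])
      rw [hD, hQ] at h1
      simp only [List.append_assoc, List.cons_append, List.count_append, List.count_cons] at h1 ⊢
      omega)
    rw [hD, hQ]
    simpa only [List.append_assoc, List.cons_append] using h

/-- both letters before -/
theorem caseG {n : ℕ} {β : FIC} (hB : BI n (RR β)) (p A Q : List ℕ) (x y : ℕ) (hxy : x ≠ y)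
    (hx : x ∈ A) (hy : y ∈ A)
    (hml : ∀ c ∈ A, 2 ≤ (p ++ (A ++ x :: y :: Q)).count c) :
    RR β (p ++ (A ++ x :: y :: Q)) (p ++ (A ++ y :: x :: Q)) := by
  obtain ⟨A1, A2, hA⟩ := List.append_of_mem hx
  have hy2 : y ∈ A1 ∨ y ∈ A2 := by
    rw [hA, List.mem_append, List.mem_cons] at hy
    rcases hy with h | h | h
    · exact Or.inl h
    · exact absurd h.symm hxy
    · exact Or.inr h
  rcases hy2 with hy2 | hy2
  · obtain ⟨P1, c, hP1⟩ := List.append_of_mem hy2
    have h := hB.f' (p ++ P1) A2 c Q y x (by
      intro a ha
      have h1 := hml a (by rw [hA, hP1]; simp [ha])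
      rw [hA, hP1] at h1
      simp only [List.append_assoc, List.cons_append, List.count_append, List.count_cons] at h1 ⊢
      omega)
    rw [hA, hP1]
    have h2 := RR.symm h
    simpa only [List.append_assoc, List.cons_append] using h2
  · obtain ⟨c, R, hQ⟩ := List.append_of_mem hy2
    have h := hB.f' (p ++ A1) R c Q x y (by
      intro a ha
      have h1 := hml a (by rw [hA, hQ]; simp [ha])
      rw [hA, hQ] at h1
      simp only [List.append_assoc, List.cons_append, List.count_append, List.count_cons] at h1 ⊢
      omega)
    rw [hA, hQ]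
    simpa only [List.append_assoc, List.cons_append] using h

/-- **HHL** -/
theorem hhl : HhlStmt := by
  intro k n β hB H pre suf A D x y hok hx hy
  have hml : ∀ c ∈ A ++ x :: y :: D, 2 ≤ (Wd pre suf (A ++ x :: y :: D)).count c := by
    intro c hc
    unfold Wd
    rw [List.count_append, List.count_append]
    by_cases hcH : c ∈ H
    · have := hok.hv c hcH
      omega
    · obtain ⟨h1, -, h3⟩ := hok.lt c hc hcH
      rcases h3 with h3 | h3
      · have := List.count_pos_iff.2 h3
        omega
      · have := List.count_pos_iff.2 h3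
        omega
  have ew : ∀ a b : ℕ, Wd pre suf (A ++ a :: b :: D) = pre ++ (A ++ a :: b :: (D ++ suf)) := by
    intro a b; unfold Wd; simp
  have hcx := hok.hv x hx
  have hcy := hok.hv y hy
  rw [ew] at hml
  rw [ew, ew]
  by_cases hxy : x = y
  · subst hxy; exact RR.refl _
  have hcx2 : 1 ≤ A.count x + D.count x := by
    simp only [List.count_append, List.count_cons, beq_self_eq_true, if_true,
      beq_iff_eq, if_neg (Ne.symm hxy)] at hcx
    omega
  have hcy2 : 1 ≤ A.count y + D.count y := by
    simp only [List.count_append, List.count_cons, beq_self_eq_true, if_true,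
      beq_iff_eq, if_neg hxy] at hcy
    omega
  have hx2 : x ∈ A ∨ x ∈ D := by
    by_cases h : x ∈ A
    · exact Or.inl h
    · right
      have := List.count_eq_zero.2 h
      exact List.count_pos_iff.1 (by omega)
  have hy2 : y ∈ A ∨ y ∈ D := by
    by_cases h : y ∈ A
    · exact Or.inl h
    · right
      have := List.count_eq_zero.2 h
      exact List.count_pos_iff.1 (by omega)
  by_cases hD : x ∈ D ∧ y ∈ D
  · have := caseF hB (pre ++ A) D suf x y hxy hD.1 hD.2 (fun c hc => by
      have h1 := hml c (by simp [hc])
      simpa only [List.append_assoc] using h1)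
    simpa only [List.append_assoc] using this
  by_cases hA : x ∈ A ∧ y ∈ A
  · exact caseG hB pre A (D ++ suf) x y hxy hA.1 hA.2 (fun c hc => hml c (by simp [hc]))
  -- make both letters thick; the letters in the middle are never met
  have hrn : ∀ p s : List ℕ, RR β (p ++ (List.replicate (n + 1) x ++ (List.replicate (n + 1) y ++ s)))
      (p ++ (List.replicate (n + 1) y ++ (List.replicate (n + 1) x ++ s))) := by
    intro p s
    have h4 := RR.sub (fun i => if i = 0 then [x] else [y]) (show RR β _ _ from hB.rn)
    rw [List.flatMap_append, List.flatMap_append, flatMap_rep _ _ 0 x (by simp),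
      flatMap_rep _ _ 1 y (by simp)] at h4
    have h5 := ((RR.refl p).append h4).append (RR.refl (β := β) s)
    simpa only [List.append_assoc] using h5
  have key : ∀ u v : ℕ, u ≠ v → (u ∈ A ∨ u ∈ D) → (v ∈ A ∨ v ∈ D) →
      (∀ c ∈ A ++ u :: v :: D, 2 ≤ (pre ++ (A ++ u :: v :: (D ++ suf))).count c) →
      RR β (pre ++ (A ++ u :: v :: (D ++ suf)))
        (pre ++ (A ++ (List.replicate (n + 1) u ++ (List.replicate (n + 1) v ++ (D ++ suf))))) := by
    intro u v huv hu hv hm
    have h1 := thick hB pre A (v :: D) suf u (by
      rcases hu with h | h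
      · exact Or.inl h
      · exact Or.inr (List.mem_cons_of_mem _ h)) (by
      intro c hc
      have h0 := hm c (by
        rw [List.mem_append] at hc ⊢
        rcases hc with h | h
        · exact Or.inl h
        · exact Or.inr (List.mem_cons_of_mem _ h))
      simpa only [List.cons_append] using h0)
    have h2 := thick hB pre (A ++ List.replicate (n + 1) u) D suf v (by
      rcases hv with h | h
      · exact Or.inl (List.mem_append_left _ h)
      · exact Or.inr h) (by
      intro c hc
      have h0 : 2 ≤ (pre ++ (A ++ u :: v :: (D ++ suf))).count c := by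
        apply hm
        rw [List.mem_append, List.mem_append] at hc
        rw [List.mem_append, List.mem_cons, List.mem_cons]
        rcases hc with (h | h) | h
        · exact Or.inl h
        · exact Or.inr (Or.inl (List.eq_of_mem_replicate h))
        · exact Or.inr (Or.inr (Or.inr h))
      simp only [List.count_append, List.count_cons, List.count_replicate] at h0 ⊢
      split_ifs at h0 ⊢ <;> omega)
    simp only [List.append_assoc, List.cons_append] at h1 h2
    exact β.trans h1 h2
  have hml2 : ∀ c ∈ A ++ y :: x :: D, 2 ≤ (pre ++ (A ++ y :: x :: (D ++ suf))).count c := by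
    intro c hc
    have h0 := hml c (by
      simp only [List.mem_append, List.mem_cons] at hc ⊢
      tauto)
    simp only [List.count_append, List.count_cons] at h0 ⊢
    omega
  have e1 := key x y hxy hx2 hy2 hml
  have e2 := key y x (Ne.symm hxy) hy2 hx2 hml2
  have e3 := hrn (pre ++ A) (D ++ suf)
  simp only [List.append_assoc] at e3
  exact β.trans (β.trans e1 e3) (RR.symm e2)

end Pool.Agent.MWGI.H58
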