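import Pool.Agent.Helper48_MWGI.JTools

/-!
# Block MWGI: the edges `re`, `le` are join prime (general scheme)
-/

set_option autoImplicit false

namespace Pool.Agent.MWGI.H48

open Pool.Agent.Helper14_MV Pool.Agent.Helper2_MV Pool.Agent.MVO Pool.Agent.MWL Pool.Agent.MWS
open Pool.Agent.MWH Pool.Agent.MWHP Pool.Agent.MWGI

/-- `J 2` gives all edges -/
abbrev J2aStmt : Prop := ∀ (n : ℕ) (θ : FIC), BI n (RR θ) → Has n (FC.ofFIC θ) (Bit.J 2) →
  ∀ e, Good n e → EdIn n (RR θ) e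

theorem ll2_of {k i p : ℕ} (hi : i ≤ k) (hp : p ≤ k) (hip : i ≠ p) {a : ℕ → ℕ}
    (h : ∀ j ≤ k, a j = if j = i ∨ j = p then 1 else 0) : ∃ u v, LL2 k a u v := by
  have hai : a i = 1 := by rw [h i hi, if_pos (Or.inl rfl)]
  have hap : a p = 1 := by rw [h p hp, if_pos (Or.inr rfl)]
  have hz : ∀ j ≤ k, j ≠ i → j ≠ p → a j = 0 := by
    intro j hj h1 h2
    rw [h j hj, if_neg (by tauto)]
  rcases Nat.lt_or_gt_of_ne hip with hlt | hlt
  · exact ⟨i, p, ⟨hlt, hp, hai, hap, fun j hj h1 h2 => hz j hj h1 h2⟩⟩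
  · exact ⟨p, i, ⟨hlt, hi, hap, hai, fun j hj h1 h2 => hz j hj h2 h1⟩⟩

theorem lky {n : ℕ} {β θ : FIC} (hb : MWGR.BasG n β) (hθ : β ≤ θ) (hn : NC2 θ)
    (hJ : ¬ Has n (FC.ofFIC θ) (Bit.J 2)) {k : ℕ} {B B' : ℕ → List ℕ} (hB : OkB k B)
    (hB' : OkB k B') (hr : RR θ (asm k B) (asm k B')) {c : ℕ} (hc : NS k c)
    (hL : ∃ u v, LL2 k (ty B c) u v) : ∀ j ≤ k, ty B' c j = ty B c j := by
  intro j hj
  obtain ⟨u, v, hL⟩ := hL
  have hlr : LR n (FC.ofFIC θ) := MWGR.B.lrg n β θ hb hθ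
  have hnd : ND (FC.ofFIC θ) := MWHP.Comp.c_MWA_Ndq β θ hb.cap hθ hn
  have h1 : L1 θ k (ty B c) (ty B' c) :=
    MWHP.Comp.c_MVO_One.1 θ k B B' c hc hB.ok hB'.ok hr
  have hna : ¬ Ab n (FC.ofFIC θ) k (ty B c) j := fun ha =>
    hJ ((MWHP.Comp.c_MWHP_Lt2 n (FC.ofFIC θ) hlr k (ty B c) u v hL).1 ⟨j, hj, ha⟩)
  exact (MWHP.Comp.c_MWL_Key n (FC.ofFIC θ) hlr hnd k (ty B c) (ty B' c) h1 j hj hna).symm

theorem wz_okB {n : ℕ} {k i p : ℕ} (hi : i ≤ k) (hp : p ≤ k) (hip : i ≠ p) {u v : ℕ}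
    (huv : 2 ≤ u + v) : OkB k (wz n i p Za u v) ∧ Pf k i p (wz n i p Za u v) := by
  have e1 : ∀ j, (wz n i p Za u v j).count 1 = if j = i ∨ j = p then 1 else 0 := by
    intro j
    unfold wz Za
    by_cases hji : j = i
    · simp [hji, List.count_replicate]
    · by_cases hjp : j = p
      · subst hjp
        simp [hji]
      · simp [hji, hjp, List.count_replicate]
  have e0 : (wz n i p Za u v i).count 0 = u + v := by
    unfold wz
    simp
  have hd0 : 2 ≤ deg k (ty (wz n i p Za u v) 0) := by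
    have h1 : (wz n i p Za u v i).count 0 ≤ deg k (ty (wz n i p Za u v) 0) :=
      le_deg (a := ty (wz n i p Za u v) 0) hi
    omega
  have hd1 : 2 ≤ deg k (ty (wz n i p Za u v) 1) := by
    have h1 : (wz n i p Za u v i).count 1 + (wz n i p Za u v p).count 1 ≤
        deg k (ty (wz n i p Za u v) 1) := le_deg2 (a := ty (wz n i p Za u v) 1) hi hp hip
    rw [e1, e1, if_pos (Or.inl rfl), if_pos (Or.inr rfl)] at h1
    exact h1
  refine ⟨⟨?_, ?_⟩, ⟨fun j _ => e1 j, ?_, hd0⟩⟩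
  · intro j hj a ha
    rw [wz_WW] at ha
    exact WW_ok k i p _ u v j hj a ha
  · intro j hj a ha
    have ha' := ha
    rw [wz_WW] at ha'
    rcases WW_mem ha' with rfl | rfl
    · exact hd0
    · exact hd1
  · unfold wz
    rw [if_neg (Ne.symm hip), if_pos rfl]
    simp

theorem X_inj {u v u' v' : ℕ} (h : X u ++ 1 :: X v = X u' ++ 1 :: X v') : u = u' ∧ v = v' := by
  induction u generalizing u' with
  | zero =>
    cases u' with
    | zero =>
      refine ⟨rfl, ?_⟩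
      have h1 : X v = X v' := by simpa [X] using h
      have := congrArg List.length h1
      simpa [X] using this
    | succ u' =>
      exfalso
      have h1 : (1 : ℕ) :: X v = 0 :: (X u' ++ 1 :: X v') := h
      exact absurd (List.cons.inj h1).1 (by decide)
  | succ u ih =>
    cases u' with
    | zero =>
      exfalso
      have h1 : (0 : ℕ) :: (X u ++ 1 :: X v) = 1 :: X v' := h
      exact absurd (List.cons.inj h1).1 (by decide)
    | succ u' =>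
      have h1 : (0 : ℕ) :: (X u ++ 1 :: X v) = 0 :: (X u' ++ 1 :: X v') := h
      obtain ⟨h2, h3⟩ := ih (List.cons.inj h1).2
      exact ⟨by omega, h3⟩

/-- the general scheme -/
theorem jp_gen (hJ2 : J2aStmt) {n : ℕ} {β : FIC} (hB : BI n (RR β)) (e : Ed) (he : Good n e)
    {k i p u0 v0 u1 v1 : ℕ} (hi : i ≤ k) (hp : p ≤ k) (hip : i ≠ p)
    (hl : e.l n = asm k (wz n i p Za u0 v0)) (hr : e.r n = asm k (wz n i p Za u1 v1))
    (h0 : 2 ≤ v0 ∨ (v0 = 0 ∧ 2 ≤ u0)) (h1 : 2 ≤ v1 ∨ (v1 = 0 ∧ 2 ≤ u1))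
    (hs : u0 + v0 ≡ u1 + v1 [MOD n]) (St : ℕ → ℕ → Prop) (hA0 : St u0 v0) (hA1 : ¬ St u1 v1)
    (step : ∀ θ : FIC, β ≤ θ → ¬ RR θ (e.l n) (e.r n) → ∀ (c c' : ℕ → ℕ) (u v u' v' : ℕ),
      RR θ (asm k (WW i p c u v)) (asm k (WW i p c' u' v')) → St u v → St u' v') :
    JPp β (e.l n, e.r n) := by
  have hb := basG hB
  rw [hl, hr]
  obtain ⟨ok0, pf0⟩ := wz_okB (n := n) hi hp hip (u := u0) (v := v0) (by omega)
  obtain ⟨ok1, pf1⟩ := wz_okB (n := n) hi hp hip (u := u1) (v := v1) (by omega)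
  have ei : ∀ u v, wz n i p Za u v i = X u ++ 1 :: X v := by
    intro u v; unfold wz; rw [if_pos rfl]
  refine MWGR.B.jpig β hb.cap k (wz n i p Za u0 v0) (wz n i p Za u1 v1)
    (fun B => Pf k i p B ∧ ∃ u v, B i = X u ++ 1 :: X v ∧ St u v) ok0 ok1
    ⟨pf0, u0, v0, ei _ _, hA0⟩ ?_ ?_ ?_
  · rintro ⟨-, u, v, huv, hst⟩
    rw [ei] at huv
    obtain ⟨rfl, rfl⟩ := X_inj huv
    exact hA1 hst
  · rintro B B' hBB ⟨hP, u, v, huv, hst⟩
    refine ⟨⟨fun j hj => by rw [← hBB j hj]; exact hP.l1 j hj, by rw [← hBB p hp]; exact hP.l0,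
      ?_⟩, u, v, by rw [← hBB i hi]; exact huv, hst⟩
    have : deg k (ty B' 0) = deg k (ty B 0) := by
      unfold deg
      apply Finset.sum_congr rfl
      intro j hj
      show (B' j).count 0 = (B j).count 0
      rw [hBB j (by have := Finset.mem_range.1 hj; omega)]
    rw [this]
    exact hP.d0
  · rintro θ hθ hN hne B B' ok ok' hsb hsb' hrr ⟨hP, u, v, huv, hst⟩
    have hT := mono hθ hB
    have hnJ : ¬ Has n (FC.ofFIC θ) (Bit.J 2) := by
      intro hJ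
      apply hne
      have := hJ2 n θ hT hJ e he
      unfold EdIn at this
      rwa [hl, hr] at this
    have h01 : ∀ C : ℕ → List ℕ, MWS.Sub k (wz n i p Za u0 v0) C → ∀ j ≤ k, ∀ c ∈ C j,
        c = 0 ∨ c = 1 := by
      intro C hC j hj c hc
      obtain ⟨l, hl', hcl⟩ := hC c ⟨j, hj, hc⟩
      rw [wz_WW] at hcl
      exact WW_mem hcl
    -- the letter 1
    have hk1 := lky hb hθ hN hnJ ok ok' hrr (ns01 k).2 (ll2_of hi hp hip hP.l1)
    have hl1' : ∀ j ≤ k, (B' j).count 1 = if j = i ∨ j = p then 1 else 0 := by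
      intro j hj
      have h2 : (B' j).count 1 = (B j).count 1 := hk1 j hj
      rw [h2]
      exact hP.l1 j hj
    -- the letter 0
    have hl0' : 0 ∉ B' p := by
      intro h0'
      exact hne (xnp hB hθ hN hi hp hip ok ok' hrr hP.l0 h0' h0 h1 hs)
    have hd0' : 2 ≤ deg k (ty B' 0) := by
      have h2 := hb.cap θ hθ hN _ _ hrr 0
      rw [count_asm (ns01 k).1, count_asm (ns01 k).1] at h2
      have h3 := hP.d0
      change 2 ≤ deg k (fun j => (B j).count 0) at h3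
      show 2 ≤ deg k (fun j => (B' j).count 0)
      omega
    have hP' : Pf k i p B' := ⟨hl1', hl0', hd0'⟩
    have h3 := hl1' i hi
    rw [if_pos (Or.inl rfl)] at h3
    obtain ⟨u', v', huv'⟩ := form1 (h01 B' hsb' i hi) h3
    refine ⟨hP', u', v', huv', ?_⟩
    have e1 := eqW hp (h01 B hsb) hP huv
    have e2 := eqW hp (h01 B' hsb') hP' huv'
    rw [e1, e2] at hrr
    refine step θ hθ ?_ _ _ u v u' v' hrr hst
    rw [hl, hr]
    exact hne

/-- all exponents large -/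
theorem big {n : ℕ} {θ : FIC} {k i p : ℕ} (hip : i ≠ p) {c c' : ℕ → ℕ} {u v u' v' : ℕ}
    (h : RR θ (asm k (WW i p c u v)) (asm k (WW i p c' u' v'))) (a e : ℕ) :
    RR θ (asm k (WW i p (fun j => c j * (n + 1) + 2 * n) (a + u * (n + 1)) (v * (n + 1) + e)))
      (asm k (WW i p (fun j => c' j * (n + 1) + 2 * n) (a + u' * (n + 1)) (v' * (n + 1) + e))) :=
  insW hip (subW h (n + 1)) (fun _ => 2 * n) a e

theorem md (n a t : ℕ) : a + n * t ≡ a [MOD n] := by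
  unfold Nat.ModEq
  rw [Nat.add_mul_mod_self_left]

/-- correction of the other blocks -/
theorem fin {n : ℕ} {θ : FIC} (hT : BI n (RR θ)) {k i p : ℕ} (hip : i ≠ p) {c : ℕ → ℕ}
    {u v u' v' : ℕ}
    (h : RR θ (asm k (WW i p (fun j => c j * (n + 1) + 2 * n) u v))
      (asm k (WW i p (fun j => c j * (n + 1) + 2 * n) u' v'))) {a e u1 v1 u1' v1' : ℕ}
    (h1 : a + u ≡ u1 [MOD n] ∧ (a + u = u1 ∨ (2 ≤ a + u ∧ 2 ≤ u1)))
    (h2 : v + e ≡ v1 [MOD n] ∧ (v + e = v1 ∨ (2 ≤ v + e ∧ 2 ≤ v1)))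
    (h3 : a + u' ≡ u1' [MOD n] ∧ (a + u' = u1' ∨ (2 ≤ a + u' ∧ 2 ≤ u1')))
    (h4 : v' + e ≡ v1' [MOD n] ∧ (v' + e = v1' ∨ (2 ≤ v' + e ∧ 2 ≤ v1'))) :
    RR θ (asm k (wz n i p Za u1 v1)) (asm k (wz n i p Za u1' v1')) := by
  have hn := hT.pos
  have h5 := insW hip h (fun j => (n - 1) * c j) a e
  have hc : ∀ j ≤ k, j ≠ i → j ≠ p → (c j * (n + 1) + 2 * n + (n - 1) * c j) ≡ 2 * n [MOD n] ∧
      ((c j * (n + 1) + 2 * n + (n - 1) * c j) = 2 * n ∨
        (2 ≤ (c j * (n + 1) + 2 * n + (n - 1) * c j) ∧ 2 ≤ 2 * n)) := by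
    intro j _ _ _
    refine ⟨?_, Or.inr ⟨by omega, by omega⟩⟩
    have e1 : c j * (n + 1) + 2 * n + (n - 1) * c j = 2 * n + n * (2 * c j) := by
      obtain ⟨m, rfl⟩ : ∃ m, n = m + 1 := ⟨n - 1, by omega⟩
      simp only [Nat.add_sub_cancel]
      ring
    rw [e1]
    exact md n _ _
  rw [wz_WW, wz_WW]
  exact θ.trans (RR.symm (nmW hT hc h1 h2)) (θ.trans h5 (nmW hT hc h3 h4))

/-- the edge `re` from a relation -/
theorem re_of {n : ℕ} {θ : FIC} (hT : BI n (RR θ)) {k i p : ℕ} (hip : i ≠ p) {c c' : ℕ → ℕ}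
    {u u' v' : ℕ} (hv : v' ≠ 0)
    (h : RR θ (asm k (WW i p c u 0)) (asm k (WW i p c' u' v'))) : Re n k i p Za (RR θ) := by
  have hn := hT.pos
  have b0 := big (n := n) hip h (2 * n) 0
  have b1 := big (n := n) hip h (2 * n) (2 * n)
  have hv2 : 2 ≤ v' * (n + 1) := by
    have : 1 * (n + 1) ≤ v' * (n + 1) := Nat.mul_le_mul_right _ (by omega)
    omega
  have b2 : RR θ (asm k (WW i p (fun j => c' j * (n + 1) + 2 * n) (2 * n + u' * (n + 1))
      (v' * (n + 1) + 2 * n))) (asm k (WW i p (fun j => c' j * (n + 1) + 2 * n)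
      (2 * n + u' * (n + 1)) (v' * (n + 1) + 0))) := by
    refine nmW hT (fun j _ _ _ => ⟨rfl, Or.inl rfl⟩) ⟨rfl, Or.inl rfl⟩ ⟨?_, Or.inr ⟨by omega, by omega⟩⟩
    have := md n (v' * (n + 1)) 2
    rwa [Nat.mul_comm n 2] at this
  have b3 := θ.trans b1 (θ.trans b2 (RR.symm b0))
  -- b3 : (c)[2n+u(n+1), 2n] ~ (c)[2n + u(n+1), 0]
  have hu : ∀ t, (n - 1) * u + (2 * n + u * (n + 1)) + t = 2 * n + n * (2 * u) + t := by
    intro t
    obtain ⟨m, rfl⟩ : ∃ m, n = m + 1 := ⟨n - 1, by omega⟩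
    simp only [Nat.add_sub_cancel]
    ring
  have hu' : (n - 1) * u + (2 * n + u * (n + 1)) ≡ 2 * n [MOD n] ∧
      ((n - 1) * u + (2 * n + u * (n + 1)) = 2 * n ∨
        (2 ≤ (n - 1) * u + (2 * n + u * (n + 1)) ∧ 2 ≤ 2 * n)) := by
    have := hu 0
    simp only [Nat.add_zero] at this
    rw [this]
    exact ⟨md n _ _, Or.inr ⟨by omega, by omega⟩⟩
  refine fin hT hip (u := 2 * n + u * (n + 1)) (v := 0 * (n + 1) + 0) (RR.symm b3)
    (a := (n - 1) * u) (e := 0) hu' ⟨by simp [Nat.ModEq], Or.inl (by simp)⟩ hu' ⟨?_, ?_⟩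
  · simp [Nat.ModEq]
  · right
    constructor <;> omega

/-- the edge `le` from a relation -/
theorem le_of {n : ℕ} {θ : FIC} (hT : BI n (RR θ)) {k i p : ℕ} (hip : i ≠ p) {c c' : ℕ → ℕ}
    {v u' v' : ℕ} (hu : u' ≠ 0)
    (h : RR θ (asm k (WW i p c 0 v)) (asm k (WW i p c' u' v'))) : Le n k i p Za (RR θ) := by
  have hn := hT.pos
  have b0 := big (n := n) hip h 0 (2 * n)
  have b1 := big (n := n) hip h (2 * n) (2 * n)
  have hu2 : 2 ≤ u' * (n + 1) := by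
    have : 1 * (n + 1) ≤ u' * (n + 1) := Nat.mul_le_mul_right _ (by omega)
    omega
  have b2 : RR θ (asm k (WW i p (fun j => c' j * (n + 1) + 2 * n) (2 * n + u' * (n + 1))
      (v' * (n + 1) + 2 * n))) (asm k (WW i p (fun j => c' j * (n + 1) + 2 * n)
      (0 + u' * (n + 1)) (v' * (n + 1) + 2 * n))) := by
    refine nmW hT (fun j _ _ _ => ⟨rfl, Or.inl rfl⟩) ⟨?_, Or.inr ⟨by omega, by omega⟩⟩ ⟨rfl, Or.inl rfl⟩
    have := md n (u' * (n + 1)) 2
    rw [Nat.mul_comm n 2, Nat.add_comm] at this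
    rw [Nat.zero_add]
    exact this
  have b3 := θ.trans b1 (θ.trans b2 (RR.symm b0))
  have hv' : v * (n + 1) + 2 * n + (n - 1) * v ≡ 2 * n [MOD n] ∧
      (v * (n + 1) + 2 * n + (n - 1) * v = 2 * n ∨
        (2 ≤ v * (n + 1) + 2 * n + (n - 1) * v ∧ 2 ≤ 2 * n)) := by
    have : v * (n + 1) + 2 * n + (n - 1) * v = 2 * n + n * (2 * v) := by
      obtain ⟨m, rfl⟩ : ∃ m, n = m + 1 := ⟨n - 1, by omega⟩
      simp only [Nat.add_sub_cancel]
      ring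
    rw [this]
    exact ⟨md n _ _, Or.inr ⟨by omega, by omega⟩⟩
  refine fin hT hip (u := 0 + 0 * (n + 1)) (v := v * (n + 1) + 2 * n) (RR.symm b3)
    (a := 0) (e := (n - 1) * v) ⟨by simp [Nat.ModEq], Or.inl (by simp)⟩ hv' ⟨?_, ?_⟩ hv'
  · simp [Nat.ModEq]
  · right
    constructor <;> omega

/-- **JRE** -/
theorem jre (hJ2 : J2aStmt) {n : ℕ} {β : FIC} (hB : BI n (RR β)) (k i p : ℕ)
    (hg : Good n (Ed.re k i p)) : JPp β ((Ed.re k i p).l n, (Ed.re k i p).r n) := by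
  have hn := hB.pos
  obtain ⟨hi, hp, hip⟩ := hg
  refine jp_gen hJ2 hB (Ed.re k i p) ⟨hi, hp, hip⟩ hi hp hip rfl rfl (Or.inr ⟨rfl, by omega⟩)
    (Or.inl (by omega)) ?_ (fun _ v => v = 0) rfl (by show ¬ (2 * n = 0); omega) ?_
  · have := (md n (2 * n) 2).symm
    rwa [Nat.mul_comm n 2] at this
  · intro θ hθ hne c c' u v u' v' h hv
    have hv0 : v = 0 := hv
    subst hv0
    by_contra hv'
    exact hne (re_of (mono hθ hB) hip hv' h)

/-- **JLE** -/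
theorem jle (hJ2 : J2aStmt) {n : ℕ} {β : FIC} (hB : BI n (RR β)) (k i p : ℕ)
    (hg : Good n (Ed.le k i p)) : JPp β ((Ed.le k i p).l n, (Ed.le k i p).r n) := by
  have hn := hB.pos
  obtain ⟨hi, hp, hip⟩ := hg
  refine jp_gen hJ2 hB (Ed.le k i p) ⟨hi, hp, hip⟩ hi hp hip rfl rfl (Or.inl (by omega))
    (Or.inl (by omega)) ?_ (fun u _ => u = 0) rfl (by show ¬ (2 * n = 0); omega) ?_
  · have := (md n (0 + 2 * n) 2).symm
    have e : 0 + 2 * n + n * 2 = 2 * n + 2 * n := by ring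
    rwa [e] at this
  · intro θ hθ hne c c' u v u' v' h hu
    have hu0 : u = 0 := hu
    subst hu0
    by_contra hu'
    exact hne (le_of (mono hθ hB) hip hu' h)

end Pool.Agent.MWGI.H48
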