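import Pool.Agent.Helper48_MWGI.JPE1
import Pool.Agent.Helper8_MWGR.ARD
import Pool.Agent.Helper50_MWGI.WEX
import Pool.Agent.Helper4_MWGI.DZA

/-!
# Block MWGI: the edges `dz` are join prime
-/

set_option autoImplicit false

namespace Pool.Agent.MWGI.H48

open Pool.Agent.Helper14_MV Pool.Agent.Helper2_MV Pool.Agent.MVO Pool.Agent.MWL Pool.Agent.MWS
open Pool.Agent.MWH Pool.Agent.MWHP Pool.Agent.MWGI

/-- delete the letter `1` and insert it again behind `0^a` -/
theorem delins {θ : FIC} {k i p : ℕ} (hip : i ≠ p) {c c' : ℕ → ℕ} {u v u' v' : ℕ}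
    (h : RR θ (asm k (WW i p c u v)) (asm k (WW i p c' u' v'))) (a : ℕ) :
    RR θ (asm k (WW i p c a (u + v))) (asm k (WW i p c' a (u' + v'))) := by
  have h1 := rr_sub θ (fun d => if d = 0 then [0] else []) (WW_ok k i p c u v)
    (WW_ok k i p c' u' v') h
  have e0 : ∀ m : ℕ, (X m).flatMap (fun d => if d = 0 then [0] else []) = X m := by
    intro m
    induction m with
    | zero => rfl
    | succ m ih =>
      have : X (m + 1) = 0 :: X m := List.replicate_succ
      rw [this, List.flatMap_cons, ih, if_pos rfl]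
      rfl
  have bok : ∀ (c : ℕ → ℕ) (u v : ℕ), BlkOk k (fun j => (WW i p c u v j).flatMap
      (fun d => if d = 0 then [0] else [])) := by
    intro c u v j _ b hb
    rw [List.mem_flatMap] at hb
    obtain ⟨d, _, hd⟩ := hb
    by_cases h0 : d = 0
    · rw [if_pos h0, List.mem_singleton] at hd
      rw [hd]
      exact (ns01 k).1
    · rw [if_neg h0] at hd
      cases hd
  have h2 := rr_ins' θ (fun j => if j = i then X a ++ [1] else if j = p then [1] else [])
    (fun _ => []) (bok c u v) (bok c' u' v') h1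
  have e1 : ∀ (c : ℕ → ℕ) (u v : ℕ), (fun j => (if j = i then X a ++ [1] else if j = p then [1]
      else []) ++ (WW i p c u v j).flatMap (fun d => if d = 0 then [0] else []) ++ []) =
      WW i p c a (u + v) := by
    intro c u v
    funext j
    unfold WW
    by_cases hi : j = i
    · simp only [hi, if_true, List.flatMap_append, List.flatMap_cons, e0]
      have e2 : X (u + v) = X u ++ X v := List.replicate_add _ _ _
      rw [e2]
      simp
    · by_cases hp : j = p
      · subst hp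
        simp [hi]
      · simp only [hi, hp, if_false, e0]
        simp
  rw [e1, e1] at h2
  exact h2

/-- the number `u + (n-1) u'` from a relation -/
theorem dz_of {n : ℕ} {θ : FIC} (hT : BI n (RR θ)) {k i p : ℕ} (hip : i ≠ p) {c c' : ℕ → ℕ}
    {u v u' v' : ℕ} (h : RR θ (asm k (WW i p c u v)) (asm k (WW i p c' u' v'))) :
    Dz n k i p (u + (n - 1) * u') Za (RR θ) := by
  have hn := hT.pos
  have b0 := big (n := n) hip h (2 * n + (n - 1) * u') (2 * n + (n - 1) * v)
  have b1 := delins hip b0 (2 * n)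
  obtain ⟨m, rfl⟩ : ∃ m, n = m + 1 := ⟨n - 1, by omega⟩
  simp only [Nat.add_sub_cancel] at b0 b1 ⊢
  have q1 : 2 * (m + 1) + m * u' + u' * (m + 1 + 1) = 2 * (m + 1) + (m + 1) * (2 * u') := by ring
  have q2 : v * (m + 1 + 1) + (2 * (m + 1) + m * v) = 2 * (m + 1) + (m + 1) * (2 * v) := by ring
  have q3 : 2 * (m + 1) + m * u' + u * (m + 1 + 1) = 2 * (m + 1) + (u + m * u') + (m + 1) * u := by
    ring
  rw [q1, q2, q3] at b0 b1
  -- right side to the form with label `0`
  have b2 : RR θ (asm k (WW i p (fun j => c' j * (m + 1 + 1) + 2 * (m + 1)) (2 * (m + 1))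
      (2 * (m + 1) + (m + 1) * (2 * u') + (v' * (m + 1 + 1) + (2 * (m + 1) + m * v)))))
      (asm k (WW i p (fun j => c' j * (m + 1 + 1) + 2 * (m + 1))
      (2 * (m + 1) + (m + 1) * (2 * u')) (v' * (m + 1 + 1) + (2 * (m + 1) + m * v)))) := by
    refine nmW hT (fun j _ _ _ => ⟨rfl, Or.inl rfl⟩) ⟨(md _ _ _).symm, Or.inr ⟨by omega, by omega⟩⟩
      ⟨?_, Or.inr ⟨by omega, by omega⟩⟩
    have e : 2 * (m + 1) + (m + 1) * (2 * u') + (v' * (m + 1 + 1) + (2 * (m + 1) + m * v)) =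
        (v' * (m + 1 + 1) + (2 * (m + 1) + m * v)) + (m + 1) * (2 + 2 * u') := by ring
    rw [e]
    exact md _ _ _
  have b3 := θ.trans b0 (θ.trans (RR.symm b2) (RR.symm b1))
  refine fin hT hip b3 (a := 0) (e := 0) ⟨?_, Or.inr ⟨by omega, by omega⟩⟩
    ⟨?_, Or.inr ⟨by omega, by omega⟩⟩ ⟨?_, Or.inr ⟨by omega, by omega⟩⟩
    ⟨?_, Or.inr ⟨by omega, by omega⟩⟩
  · rw [Nat.zero_add]
    exact md _ _ _
  · rw [Nat.add_zero]
    exact md _ _ _
  · rw [Nat.zero_add]
  · rw [Nat.add_zero]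
    have e : 2 * (m + 1) + (u + m * u') + (m + 1) * u + (2 * (m + 1) + (m + 1) * (2 * v)) =
        2 * (m + 1) + (u + m * u') + (m + 1) * (u + 2 + 2 * v) := by ring
    rw [e]
    exact md _ _ _

/-- **JDZ** -/
theorem jdz (hJ2 : J2aStmt) {n : ℕ} {β : FIC} (hB : BI n (RR β)) (k i p d : ℕ)
    (hg : Good n (Ed.dz k i p d)) : JPp β ((Ed.dz k i p d).l n, (Ed.dz k i p d).r n) := by
  have hn := hB.pos
  obtain ⟨hi, hp, hip, q, e, hq, hqe⟩ := hg
  by_cases hd : d = 0
  · subst hd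
    intro ρ σ _ _ _ _ _
    exact Or.inl (RR.refl _)
  obtain ⟨M, hM, hM2⟩ := MWGR.H8.ard n d q e hn hd hq hqe
  have hgrp : ∀ θ : FIC, β ≤ θ → ¬ RR θ ((Ed.dz k i p d).l n) ((Ed.dz k i p d).r n) →
      M ∣ n ∧ ∀ t, Dz n k i p t Za (RR θ) → M ∣ t := by
    intro θ hθ hne
    obtain ⟨g, hgn, hg⟩ := (H4.dza H50.wex n k i p θ Za (mono hθ hB) hi hp hip).1
    have h1 : ¬ g ∣ d := fun h => hne ((hg d).2 h)
    have h2 := hM2 g hgn h1
    exact ⟨h2.trans hgn, fun t ht => h2.trans ((hg t).1 ht)⟩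
  by_cases hMn : M ∣ n
  swap
  · intro ρ σ hρ _ _ _ _
    left
    by_contra hne
    exact hMn (hgrp ρ hρ hne).1
  refine jp_gen hJ2 hB (Ed.dz k i p d) ⟨hi, hp, hip, q, e, hq, hqe⟩ hi hp hip rfl rfl
    (Or.inl (by omega)) (Or.inl (by omega)) ?_ (fun u _ => u ≡ 2 * n + d [MOD M]) rfl ?_ ?_
  · have e1 : 2 * n + d + 2 * n = 2 * n + (2 * n + d) := by ring
    rw [e1]
  · intro h
    apply hM
    have h1 : 0 ≡ d [MOD M] := Nat.ModEq.add_left_cancel' (2 * n) (by simpa using h)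
    exact (Nat.modEq_zero_iff_dvd).1 h1.symm
  · intro θ hθ hne c c' u v u' v' hr hu
    have h1 := (hgrp θ hθ hne).2 _ (dz_of (mono hθ hB) hip hr)
    have h2 : u + (n - 1) * u' + u' = u + n * u' := by
      obtain ⟨m, rfl⟩ : ∃ m, n = m + 1 := ⟨n - 1, by omega⟩
      simp only [Nat.add_sub_cancel]
      ring
    have h3 : u + (n - 1) * u' + u' ≡ u' [MOD M] := by
      have := (Nat.modEq_zero_iff_dvd.2 h1).add_right u'
      simpa using this
    have h4 : u + n * u' ≡ u [MOD M] := by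
      have : n * u' ≡ 0 [MOD M] := (Nat.modEq_zero_iff_dvd).2 (hMn.mul_right u')
      have := this.add_left u
      simpa using this
    rw [h2] at h3
    exact (h3.symm.trans h4).trans hu

end Pool.Agent.MWGI.H48
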