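import Pool.Agent.Helper48_MWGI.Prin

/-!
# Block MWGI: tools for the join prime edges

`WW i p c u v` : block `i` is `0^u 1 0^v`, block `p` is `1`, block `j` is `0^(c j)`.
-/

set_option autoImplicit false

namespace Pool.Agent.MWGI.H48

open Pool.Agent.Helper14_MV Pool.Agent.Helper2_MV Pool.Agent.MVO Pool.Agent.MWL Pool.Agent.MWS
open Pool.Agent.MWH Pool.Agent.MWHP Pool.Agent.MWGI

/-- general canonical blocks -/
def WW (i p : ℕ) (c : ℕ → ℕ) (u v : ℕ) : ℕ → List ℕ := fun j =>
  if j = i then X u ++ 1 :: X v else if j = p then [1] else X (c j)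

theorem wz_WW (n i p u v : ℕ) : wz n i p Za u v = WW i p (fun _ => 2 * n) u v := by
  funext j
  unfold wz WW Za
  simp

theorem blk {θ : FIC} {k : ℕ} {B B' : ℕ → List ℕ} (h : ∀ j ≤ k, RR θ (B j) (B' j)) :
    RR θ (asm k B) (asm k B') := by
  induction k with
  | zero => exact h 0 (le_refl 0)
  | succ k ih =>
    simp only [asm]
    have h1 := ih (fun j hj => h j (by omega))
    have h2 := h (k + 1) (le_refl _)
    have h3 := (RR.refl (β := θ) [k + 2]).append h2
    exact h1.append h3

theorem pw1 {n : ℕ} {θ : FIC} (h : BI n (RR θ)) {a : ℕ} (ha : 2 ≤ a) (m : ℕ) :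
    RR θ (X a) (X (a + n * m)) := by
  induction m with
  | zero => exact RR.refl _
  | succ m ih =>
    have h1 : RR θ (X 2) (X (n + 2)) := h.per
    have h2 := h1.append (RR.refl (β := θ) (X (a + n * m - 2)))
    rw [← List.replicate_add, ← List.replicate_add] at h2
    have e1 : 2 + (a + n * m - 2) = a + n * m := by omega
    have e2 : n + 2 + (a + n * m - 2) = a + n * (m + 1) := by
      have : n * (m + 1) = n * m + n := by ring
      omega
    rw [e1, e2] at h2
    exact θ.trans ih h2

/-- exponents -/
theorem pw {n : ℕ} {θ : FIC} (h : BI n (RR θ)) {a b : ℕ} (hab : a ≡ b [MOD n])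
    (h2 : a = b ∨ (2 ≤ a ∧ 2 ≤ b)) : RR θ (X a) (X b) := by
  rcases h2 with rfl | ⟨ha, hb⟩
  · exact RR.refl _
  · rcases Nat.le_total a b with hle | hle
    · obtain ⟨m, hm⟩ := (Nat.modEq_iff_dvd' hle).1 hab
      have : b = a + n * m := by omega
      rw [this]
      exact pw1 h ha m
    · obtain ⟨m, hm⟩ := (Nat.modEq_iff_dvd' hle).1 hab.symm
      have : a = b + n * m := by omega
      rw [this]
      exact RR.symm (pw1 h hb m)

/-- normalisation of exponents -/
theorem nmW {n : ℕ} {θ : FIC} (h : BI n (RR θ)) {k i p : ℕ} {c c' : ℕ → ℕ} {u u' v v' : ℕ}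
    (hc : ∀ j ≤ k, j ≠ i → j ≠ p → c j ≡ c' j [MOD n] ∧ (c j = c' j ∨ (2 ≤ c j ∧ 2 ≤ c' j)))
    (hu : u ≡ u' [MOD n] ∧ (u = u' ∨ (2 ≤ u ∧ 2 ≤ u')))
    (hv : v ≡ v' [MOD n] ∧ (v = v' ∨ (2 ≤ v ∧ 2 ≤ v'))) :
    RR θ (asm k (WW i p c u v)) (asm k (WW i p c' u' v')) := by
  apply blk
  intro j hj
  unfold WW
  by_cases hi : j = i
  · rw [if_pos hi, if_pos hi]
    exact (pw h hu.1 hu.2).append ((RR.refl (β := θ) [1]).append (pw h hv.1 hv.2))
  · rw [if_neg hi, if_neg hi]
    by_cases hp : j = p
    · rw [if_pos hp, if_pos hp]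
      exact RR.refl _
    · rw [if_neg hp, if_neg hp]
      exact pw h (hc j hj hi hp).1 (hc j hj hi hp).2

theorem ns01 (k : ℕ) : NS k 0 ∧ NS k 1 := ⟨fun h => by omega, fun h => by omega⟩

theorem WW_mem {i p : ℕ} {c : ℕ → ℕ} {u v j a : ℕ} (h : a ∈ WW i p c u v j) : a = 0 ∨ a = 1 := by
  unfold WW at h
  by_cases hi : j = i
  · rw [if_pos hi, List.mem_append, List.mem_cons] at h
    rcases h with h | h | h
    · exact Or.inl (List.eq_of_mem_replicate h)
    · exact Or.inr h
    · exact Or.inl (List.eq_of_mem_replicate h)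
  · rw [if_neg hi] at h
    by_cases hp : j = p
    · rw [if_pos hp, List.mem_singleton] at h
      exact Or.inr h
    · rw [if_neg hp] at h
      exact Or.inl (List.eq_of_mem_replicate h)

theorem WW_ok (k i p : ℕ) (c : ℕ → ℕ) (u v : ℕ) : BlkOk k (WW i p c u v) := by
  intro j _ a ha
  rcases WW_mem ha with rfl | rfl
  · exact (ns01 k).1
  · exact (ns01 k).2

/-- insertion -/
theorem insW {θ : FIC} {k i p : ℕ} {c c' : ℕ → ℕ} {u u' v v' : ℕ} (hip : i ≠ p)
    (h : RR θ (asm k (WW i p c u v)) (asm k (WW i p c' u' v'))) (m : ℕ → ℕ) (a e : ℕ) :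
    RR θ (asm k (WW i p (fun j => c j + m j) (a + u) (v + e)))
      (asm k (WW i p (fun j => c' j + m j) (a + u') (v' + e))) := by
  have h1 := rr_ins' θ (fun j => if j = i then X a else [])
    (fun j => if j = i then X e else if j = p then [] else X (m j)) (WW_ok k i p c u v)
    (WW_ok k i p c' u' v') h
  have e1 : ∀ (c : ℕ → ℕ) (u v : ℕ), (fun j => (if j = i then X a else []) ++ WW i p c u v j ++
      (if j = i then X e else if j = p then [] else X (m j))) =
      WW i p (fun j => c j + m j) (a + u) (v + e) := by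
    intro c u v
    funext j
    unfold WW
    by_cases hi : j = i
    · simp only [hi, if_true, X, List.replicate_add, List.append_assoc, List.cons_append]
    · by_cases hp : j = p
      · subst hp
        simp [hi]
      · simp only [hi, hp, if_false, X, List.replicate_add, List.nil_append]
  rw [e1, e1] at h1
  exact h1

/-- substitution `0 ↦ 0^N` -/
theorem subW {θ : FIC} {k i p : ℕ} {c c' : ℕ → ℕ} {u u' v v' : ℕ}
    (h : RR θ (asm k (WW i p c u v)) (asm k (WW i p c' u' v'))) (N : ℕ) :
    RR θ (asm k (WW i p (fun j => c j * N) (u * N) (v * N)))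
      (asm k (WW i p (fun j => c' j * N) (u' * N) (v' * N))) := by
  have h1 := rr_sub θ (fun d => if d = 0 then X N else [d]) (WW_ok k i p c u v)
    (WW_ok k i p c' u' v') h
  have e0 : ∀ m : ℕ, (X m).flatMap (fun d => if d = 0 then X N else [d]) = X (m * N) := by
    intro m
    induction m with
    | zero => simp [X]
    | succ m ih =>
      have : X (m + 1) = 0 :: X m := List.replicate_succ
      rw [this, List.flatMap_cons, ih, if_pos rfl]
      show List.replicate N 0 ++ List.replicate (m * N) 0 = List.replicate ((m + 1) * N) 0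
      rw [← List.replicate_add]
      congr 1
      ring
  have e1 : ∀ (c : ℕ → ℕ) (u v : ℕ), (fun j => (WW i p c u v j).flatMap
      (fun d => if d = 0 then X N else [d])) = WW i p (fun j => c j * N) (u * N) (v * N) := by
    intro c u v
    funext j
    unfold WW
    by_cases hi : j = i
    · simp only [hi, if_true, List.flatMap_append, List.flatMap_cons, e0]
      simp
    · by_cases hp : j = p
      · subst hp
        simp [hi]
      · simp only [hi, hp, if_false, e0]
  rw [e1, e1] at h1
  exact h1

/-- words over `0`, `1` with at most one `1` -/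
theorem form1 {l : List ℕ} (h : ∀ c ∈ l, c = 0 ∨ c = 1) (h1 : l.count 1 = 1) :
    ∃ u v, l = X u ++ 1 :: X v := by
  obtain ⟨P, Q, rfl⟩ := List.append_of_mem (List.count_pos_iff.1 (by omega : 0 < l.count 1))
  rw [List.count_append, List.count_cons_self] at h1
  refine ⟨P.length, Q.length, ?_⟩
  congr 1
  · rw [List.eq_replicate_iff]
    refine ⟨rfl, fun b hb => ?_⟩
    rcases h b (List.mem_append_left _ hb) with h2 | h2
    · exact h2
    · subst h2
      have := List.count_pos_iff.2 hb
      omega
  · congr 1
    rw [List.eq_replicate_iff]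
    refine ⟨rfl, fun b hb => ?_⟩
    rcases h b (List.mem_append_right _ (List.mem_cons_of_mem _ hb)) with h2 | h2
    · exact h2
    · subst h2
      have := List.count_pos_iff.2 hb
      omega

theorem form0 {l : List ℕ} (h : ∀ c ∈ l, c = 0 ∨ c = 1) (h1 : l.count 1 = 0) :
    l = X (l.count 0) := by
  have h2 : ∀ b ∈ l, b = 0 := by
    intro b hb
    rcases h b hb with h3 | h3
    · exact h3
    · subst h3
      exact absurd (List.count_pos_iff.2 hb) (by omega)
  have h3 : l = List.replicate l.length 0 := List.eq_replicate_iff.2 ⟨rfl, h2⟩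
  have h4 : l.count 0 = l.length := by
    conv_lhs => rw [h3, List.count_replicate_self]
  rw [h4]
  exact h3

/-- the profile: the letter `1` stands once in the blocks `i` and `p`, the letter `0` is not in block
`p` -/
structure Pf (k i p : ℕ) (B : ℕ → List ℕ) : Prop where
  l1 : ∀ j ≤ k, (B j).count 1 = if j = i ∨ j = p then 1 else 0
  l0 : 0 ∉ B p
  d0 : 2 ≤ deg k (ty B 0)

theorem eqW {k i p : ℕ} {B : ℕ → List ℕ} (hp : p ≤ k) (h01 : ∀ j ≤ k, ∀ c ∈ B j, c = 0 ∨ c = 1)
    (hP : Pf k i p B) {u v : ℕ} (hB : B i = X u ++ 1 :: X v) :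
    asm k B = asm k (WW i p (fun j => (B j).count 0) u v) := by
  apply asm_congr
  intro j hj
  unfold WW
  by_cases hji : j = i
  · rw [if_pos hji, hji, hB]
  · rw [if_neg hji]
    by_cases hjp : j = p
    · rw [if_pos hjp, hjp]
      have h1 := hP.l1 p hp
      rw [if_pos (Or.inr rfl)] at h1
      obtain ⟨a, b, hab⟩ := form1 (h01 p hp) h1
      have h2 := hP.l0
      rw [hab] at h2 ⊢
      have ha : a = 0 := by
        by_contra ha
        apply h2
        rw [List.mem_append]
        left
        exact List.mem_replicate.2 ⟨ha, rfl⟩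
      have hb : b = 0 := by
        by_contra hb
        apply h2
        rw [List.mem_append, List.mem_cons]
        right; right
        exact List.mem_replicate.2 ⟨hb, rfl⟩
      rw [ha, hb]
      rfl
    · rw [if_neg hjp]
      have h1 := hP.l1 j hj
      rw [if_neg (by tauto)] at h1
      exact form0 (h01 j hj) h1

/-! ### the letter `0` in block `p` -/

/-- the words with `0^e` in block `p` -/
def W2 (n i p : ℕ) (u v e : ℕ) : ℕ → List ℕ := fun j =>
  if j = i then X u ++ 1 :: X v else if j = p then 1 :: X e else X (2 * n)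

theorem W2_mem {n i p u v e j a : ℕ} (h : a ∈ W2 n i p u v e j) : a = 0 ∨ a = 1 := by
  unfold W2 at h
  by_cases hi : j = i
  · rw [if_pos hi, List.mem_append, List.mem_cons] at h
    rcases h with h | h | h
    · exact Or.inl (List.eq_of_mem_replicate h)
    · exact Or.inr h
    · exact Or.inl (List.eq_of_mem_replicate h)
  · rw [if_neg hi] at h
    by_cases hp : j = p
    · rw [if_pos hp, List.mem_cons] at h
      rcases h with h | h
      · exact Or.inr h
      · exact Or.inl (List.eq_of_mem_replicate h)
    · rw [if_neg hp] at h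
      exact Or.inl (List.eq_of_mem_replicate h)

theorem W2_ok {n : ℕ} {k i p : ℕ} (hi : i ≤ k) (hp : p ≤ k) (hip : i ≠ p) (u v e : ℕ)
    (he : 2 ≤ e) : OkB k (W2 n i p u v e) := by
  have cp : ∀ c, (W2 n i p u v e p).count c = (1 :: X e).count c := by
    intro c; unfold W2; rw [if_neg (Ne.symm hip), if_pos rfl]
  have ci : ∀ c, (W2 n i p u v e i).count c = (X u ++ 1 :: X v).count c := by
    intro c; unfold W2; rw [if_pos rfl]
  constructor
  · intro j _ a ha
    rcases W2_mem ha with rfl | rfl
    · exact (ns01 k).1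
    · exact (ns01 k).2
  · intro j hj a ha
    rcases W2_mem ha with rfl | rfl
    · have h1 : (W2 n i p u v e p).count 0 ≤ deg k (fun j => (W2 n i p u v e j).count 0) :=
        le_deg (a := fun j => (W2 n i p u v e j).count 0) hp
      have h2 : (W2 n i p u v e p).count 0 = e := by rw [cp]; simp
      rw [h2] at h1
      exact he.trans h1
    · have h1 : (W2 n i p u v e i).count 1 + (W2 n i p u v e p).count 1 ≤
          deg k (fun j => (W2 n i p u v e j).count 1) :=
        le_deg2 (a := fun j => (W2 n i p u v e j).count 1) hi hp hip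
      have h2 : (W2 n i p u v e p).count 1 = 1 := by
        rw [cp]
        simp [List.count_replicate]
      have h3 : (W2 n i p u v e i).count 1 = 1 := by
        rw [ci]
        simp [List.count_replicate]
      rw [h2, h3] at h1
      exact h1

/-- with two common blocks the letters commute -/
theorem W2_move {n : ℕ} {θ : FIC} (h : BI n (RR θ)) {k i p : ℕ} (hi : i ≤ k) (hp : p ≤ k)
    (hip : i ≠ p) (e : ℕ) (he : 2 ≤ e) : ∀ t u v : ℕ,
      RR θ (asm k (W2 n i p (u + t) v e)) (asm k (W2 n i p u (v + t) e)) := by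
  intro t
  induction t with
  | zero => intro u v; exact RR.refl _
  | succ t ih =>
    intro u v
    have h1 := cm2 h k (W2 n i p (u + t + 1) v e) (W2_ok hi hp hip _ _ _ he) i hi p hp
      (Ne.symm hip) (X (u + t)) (X v) 0 1 (by
        unfold W2
        rw [if_pos rfl]
        have : X (u + t + 1) = X (u + t) ++ [0] := List.replicate_succ'
        rw [this]; simp) (by decide)
      (by unfold W2; rw [if_neg (Ne.symm hip), if_pos rfl]
          exact List.mem_cons_of_mem _ (List.mem_replicate.2 ⟨by omega, rfl⟩))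
      (by unfold W2; rw [if_neg (Ne.symm hip), if_pos rfl]; exact List.mem_cons_self)
    have e1 : Function.update (W2 n i p (u + t + 1) v e) i (X (u + t) ++ 1 :: 0 :: X v) =
        W2 n i p (u + t) (v + 1) e := by
      funext j
      by_cases hj : j = i
      · subst hj
        rw [Function.update_self]
        unfold W2
        rw [if_pos rfl]
        rfl
      · rw [Function.update_of_ne hj]
        unfold W2
        rw [if_neg hj, if_neg hj]
    rw [e1] at h1
    have h2 := ih u (v + 1)
    have e2 : v + 1 + t = v + (t + 1) := by omega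
    rw [e2] at h2
    exact θ.trans h1 h2

/-- absorption at `p` -/
theorem xnp {n : ℕ} {β θ : FIC} (hB : BI n (RR β)) (hθ : β ≤ θ) (hN : NC2 θ) {k i p : ℕ}
    (hi : i ≤ k) (hp : p ≤ k) (hip : i ≠ p) {B B' : ℕ → List ℕ} (ok : OkB k B) (ok' : OkB k B')
    (hr : RR θ (asm k B) (asm k B')) (h0 : 0 ∉ B p) (h0' : 0 ∈ B' p) {u v u' v' : ℕ}
    (huv : 2 ≤ v ∨ (v = 0 ∧ 2 ≤ u)) (huv' : 2 ≤ v' ∨ (v' = 0 ∧ 2 ≤ u'))
    (hs : u + v ≡ u' + v' [MOD n]) :
    RR θ (asm k (wz n i p Za u v)) (asm k (wz n i p Za u' v')) := by
  have hb := basG hB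
  have hT := mono hθ hB
  have hlr : LR n (FC.ofFIC θ) := MWGR.B.lrg n β θ hb hθ
  have hnd : ND (FC.ofFIC θ) := MWHP.Comp.c_MWA_Ndq β θ hb.cap hθ hN
  have h1 : L1 θ k (ty B 0) (ty B' 0) :=
    MWHP.Comp.c_MVO_One.1 θ k B B' 0 (ns01 k).1 ok.ok ok'.ok hr
  have hbp : ty B 0 p = 0 := List.count_eq_zero.2 h0
  have hab : Ab n (FC.ofFIC θ) k (ty B 0) p := by
    by_contra hna
    have h2 := MWHP.Comp.c_MWL_Key n (FC.ofFIC θ) hlr hnd k (ty B 0) (ty B' 0) h1 p hp hna
    have h3 : ty B' 0 p = 0 := by rw [← h2, hbp]
    exact List.count_eq_zero.1 h3 h0'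
  -- the canonical one letter words
  have h2 : RR θ (mw k (ty B 0)) (mw k (ad n (ty B 0) p)) := hab
  have V : ∀ (a1 a2 : ℕ), (2 ≤ a2 ∨ (a2 = 0 ∧ 2 ≤ a1)) →
      RR θ (asm k (W2 n i p a1 a2 0)) (asm k (W2 n i p a1 a2 (2 * n))) := by
    intro a1 a2 ha
    have hn := hB.pos
    -- insertion
    have h3 := rr_ins' θ (fun j => if j = i then (if a2 = 0 then X a1 else X a1 ++ [1])
        else if j = p then [1] else [])
      (fun j => if j = i then (if a2 = 0 then X ((n - 1) * ty B 0 j) ++ [1]
        else X ((n - 1) * ty B 0 j + a2)) else if j = p then []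
        else X (2 * n + (n - 1) * ty B 0 j)) (blkOk_mw k _) (blkOk_mw k _) h2
    refine θ.trans (RR.symm ?_) (θ.trans h3 ?_)
    · apply blk
      intro j hj
      unfold W2
      by_cases hji : j = i
      · subst hji
        rw [if_pos rfl, if_pos rfl, if_pos rfl]
        have hmod : ∀ t : ℕ, t + ty B 0 j + (n - 1) * ty B 0 j = t + n * ty B 0 j := by
          intro t
          obtain ⟨m, rfl⟩ : ∃ m, n = m + 1 := ⟨n - 1, by omega⟩
          simp only [Nat.add_sub_cancel]
          ring
        by_cases ha2 : a2 = 0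
        · have ha1 : 2 ≤ a1 := by omega
          rw [if_pos ha2, if_pos ha2, ha2]
          have e : X a1 ++ List.replicate (ty B 0 j) 0 ++ (X ((n - 1) * ty B 0 j) ++ [1]) =
              X (a1 + n * ty B 0 j) ++ 1 :: X 0 := by
            rw [← hmod a1]
            simp only [X, List.replicate_add, List.append_assoc, List.replicate_zero]
          rw [e]
          exact (RR.symm (pw1 hT ha1 _)).append (RR.refl _)
        · have ha3 : 2 ≤ a2 := by omega
          rw [if_neg ha2, if_neg ha2]
          have e : X a1 ++ [1] ++ List.replicate (ty B 0 j) 0 ++ X ((n - 1) * ty B 0 j + a2) =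
              X a1 ++ 1 :: X (a2 + n * ty B 0 j) := by
            have e3 : a2 + n * ty B 0 j = ty B 0 j + ((n - 1) * ty B 0 j + a2) := by
              rw [← hmod a2]; ring
            rw [e3]
            simp only [X, List.replicate_add, List.append_assoc, List.cons_append, List.nil_append]
          rw [e]
          exact (RR.refl _).append ((RR.refl (β := θ) [1]).append (RR.symm (pw1 hT ha3 _)))
      · rw [if_neg hji, if_neg hji, if_neg hji]
        by_cases hjp : j = p
        · subst hjp
          rw [if_pos rfl, if_pos rfl, if_pos rfl, hbp]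
          exact RR.refl _
        · rw [if_neg hjp, if_neg hjp, if_neg hjp]
          have e : [] ++ List.replicate (ty B 0 j) 0 ++ X (2 * n + (n - 1) * ty B 0 j) =
              X (2 * n + n * ty B 0 j) := by
            have e3 : 2 * n + n * ty B 0 j = ty B 0 j + (2 * n + (n - 1) * ty B 0 j) := by
              obtain ⟨m, rfl⟩ : ∃ m, n = m + 1 := ⟨n - 1, by omega⟩
              simp only [Nat.add_sub_cancel]
              ring
            rw [e3]
            simp only [X, List.replicate_add, List.nil_append]
          rw [e]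
          exact RR.symm (pw1 hT (by omega) _)
    · apply blk
      intro j hj
      unfold W2
      by_cases hji : j = i
      · subst hji
        have had : ad n (ty B 0) p j = ty B 0 j := by
          unfold ad
          rw [if_neg hip, Nat.add_zero]
        rw [if_pos rfl, if_pos rfl, if_pos rfl, had]
        have hmod : ∀ t : ℕ, t + ty B 0 j + (n - 1) * ty B 0 j = t + n * ty B 0 j := by
          intro t
          obtain ⟨m, rfl⟩ : ∃ m, n = m + 1 := ⟨n - 1, by omega⟩
          simp only [Nat.add_sub_cancel]
          ring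
        by_cases ha2 : a2 = 0
        · have ha1 : 2 ≤ a1 := by omega
          rw [if_pos ha2, if_pos ha2, ha2]
          have e : X a1 ++ List.replicate (ty B 0 j) 0 ++ (X ((n - 1) * ty B 0 j) ++ [1]) =
              X (a1 + n * ty B 0 j) ++ 1 :: X 0 := by
            rw [← hmod a1]
            simp only [X, List.replicate_add, List.append_assoc, List.replicate_zero]
          rw [e]
          exact (RR.symm (pw1 hT ha1 _)).append (RR.refl _)
        · have ha3 : 2 ≤ a2 := by omega
          rw [if_neg ha2, if_neg ha2]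
          have e : X a1 ++ [1] ++ List.replicate (ty B 0 j) 0 ++ X ((n - 1) * ty B 0 j + a2) =
              X a1 ++ 1 :: X (a2 + n * ty B 0 j) := by
            have e3 : a2 + n * ty B 0 j = ty B 0 j + ((n - 1) * ty B 0 j + a2) := by
              rw [← hmod a2]; ring
            rw [e3]
            simp only [X, List.replicate_add, List.append_assoc, List.cons_append, List.nil_append]
          rw [e]
          exact (RR.refl _).append ((RR.refl (β := θ) [1]).append (RR.symm (pw1 hT ha3 _)))
      · rw [if_neg hji, if_neg hji, if_neg hji]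
        by_cases hjp : j = p
        · subst hjp
          have had : ad n (ty B 0) j j = 2 * n := by
            unfold ad
            rw [if_pos rfl, hbp, Nat.zero_add]
          rw [if_pos rfl, if_pos rfl, if_pos rfl, had]
          simp only [List.append_nil]
          exact RR.refl _
        · have had : ad n (ty B 0) p j = ty B 0 j := by
            unfold ad
            rw [if_neg hjp, Nat.add_zero]
          rw [if_neg hjp, if_neg hjp, if_neg hjp, had]
          have e : [] ++ List.replicate (ty B 0 j) 0 ++ X (2 * n + (n - 1) * ty B 0 j) =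
              X (2 * n + n * ty B 0 j) := by
            have e3 : 2 * n + n * ty B 0 j = ty B 0 j + (2 * n + (n - 1) * ty B 0 j) := by
              obtain ⟨m, rfl⟩ : ∃ m, n = m + 1 := ⟨n - 1, by omega⟩
              simp only [Nat.add_sub_cancel]
              ring
            rw [e3]
            simp only [X, List.replicate_add, List.nil_append]
          rw [e]
          exact RR.symm (pw1 hT (by omega) _)
  have e0 : ∀ a1 a2 : ℕ, W2 n i p a1 a2 0 = wz n i p Za a1 a2 := by
    intro a1 a2
    funext j
    unfold W2 wz Za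
    by_cases hji : j = i
    · rw [if_pos hji, if_pos hji]
    · rw [if_neg hji, if_neg hji]
      by_cases hjp : j = p
      · rw [if_pos hjp, if_pos hjp]; rfl
      · rw [if_neg hjp, if_neg hjp, if_pos rfl]
  have hn := hB.pos
  have a1 := V u v huv
  have a2 := V u' v' huv'
  rw [e0] at a1 a2
  have m1 : RR θ (asm k (W2 n i p u v (2 * n))) (asm k (W2 n i p (u + v) 0 (2 * n))) := by
    have := W2_move hT hi hp hip (2 * n) (by omega) v u 0
    rw [Nat.zero_add] at this
    exact RR.symm this
  have m2 : RR θ (asm k (W2 n i p u' v' (2 * n))) (asm k (W2 n i p (u' + v') 0 (2 * n))) := by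
    have := W2_move hT hi hp hip (2 * n) (by omega) v' u' 0
    rw [Nat.zero_add] at this
    exact RR.symm this
  have m3 : RR θ (asm k (W2 n i p (u + v) 0 (2 * n))) (asm k (W2 n i p (u' + v') 0 (2 * n))) := by
    apply blk
    intro j _
    unfold W2
    by_cases hji : j = i
    · rw [if_pos hji, if_pos hji]
      exact (pw hT hs (Or.inr ⟨by omega, by omega⟩)).append (RR.refl _)
    · rw [if_neg hji, if_neg hji]
      exact RR.refl _
  exact θ.trans a1 (θ.trans m1 (θ.trans m3 (θ.trans (RR.symm m2) (RR.symm a2))))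

end Pool.Agent.MWGI.H48
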