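import Pool.Agent.Helper48_MWGI.Base
import Pool.Agent.Helper48_MWGR.CompB

/-!
# Block MWGI: normalisation and the principle
-/

set_option autoImplicit false

namespace Pool.Agent.MWGI.H48

open Pool.Agent.Helper14_MV Pool.Agent.Helper2_MV Pool.Agent.MVO Pool.Agent.MWL Pool.Agent.MWS
open Pool.Agent.MWH Pool.Agent.MWHP Pool.Agent.MWGI

/-- letters with three occurrences can be repeated -/
theorem th3 {n : ℕ} {β : FIC} (h : BI n (RR β)) (p q r s : List ℕ) (x : ℕ) :
    RR β (p ++ x :: (q ++ x :: (r ++ x :: s)))
      (p ++ (List.replicate (n + 1) x ++ (q ++ (List.replicate (n + 1) x ++ (r ++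
        (List.replicate (n + 1) x ++ s)))))) := by
  have h1 := RR.sub (fun i => if i = 0 then [x] else if i = 2 then q else r)
    (show RR β _ _ from h.l)
  have e1 : ∀ m : ℕ, (List.replicate m 0).flatMap
      (fun i => if i = 0 then [x] else if i = 2 then q else r) = List.replicate m x := by
    intro m
    induction m with
    | zero => rfl
    | succ m ih => rw [List.replicate_succ, List.flatMap_cons, ih, List.replicate_succ]; rfl
  simp only [MWZ.X, List.flatMap_append, List.flatMap_cons, List.flatMap_nil, e1] at h1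
  have h2 := ((RR.refl (β := β) p).append h1).append (RR.refl s)
  simpa using h2

/-- one occurrence, if there are three -/
theorem th1 {n : ℕ} {β : FIC} (h : BI n (RR β)) (p s : List ℕ) (x : ℕ)
    (h3 : 3 ≤ (p ++ x :: s).count x) :
    RR β (p ++ x :: s) (p ++ (List.replicate (n + 1) x ++ s)) := by
  -- exponents
  have ex : ∀ (p q : List ℕ) (x : ℕ),
      RR β (p ++ (List.replicate (n + 1) x ++ q)) (p ++ (List.replicate (2 * n + 1) x ++ q)) := by
    intro p q x
    have hn := h.pos
    have h1 := h.it p [] [] (List.replicate (n - 1) x ++ q) x (by intro c hc; simp at hc)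
    have e1 : p ++ x :: ([] ++ ([] ++ x :: (List.replicate (n - 1) x ++ q))) =
        p ++ (List.replicate (n + 1) x ++ q) := by
      obtain ⟨m, rfl⟩ : ∃ m, n = m + 1 := ⟨n - 1, by omega⟩
      simp [List.replicate_succ]
    have e2 : p ++ x :: ([] ++ (List.replicate n x ++ ([] ++ x :: (List.replicate (n - 1) x ++ q)))) =
        p ++ (List.replicate (2 * n + 1) x ++ q) := by
      have h3 : 2 * n + 1 = 1 + (n + (1 + (n - 1))) := by omega
      rw [h3, List.replicate_add, List.replicate_add, List.replicate_add]
      simp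
    rw [e1, e2] at h1
    exact h1
  have spl : ∀ l : List ℕ, x ∈ l → ∃ u v, l = u ++ x :: v := fun l hl => List.append_of_mem hl
  have hcount : 2 ≤ p.count x + s.count x := by
    rw [List.count_append, List.count_cons_self] at h3
    omega
  have two : ∀ l : List ℕ, 2 ≤ l.count x → ∃ u v w, l = u ++ x :: (v ++ x :: w) := by
    intro l hl
    obtain ⟨u, v, rfl, hu⟩ := List.eq_append_cons_of_mem (List.count_pos_iff.1 (by omega : 0 < l.count x))
    rw [List.count_append, List.count_cons_self, List.count_eq_zero.2 hu] at hl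
    obtain ⟨v1, w, rfl⟩ := spl v (List.count_pos_iff.1 (by omega))
    exact ⟨u, v1, w, rfl⟩
  by_cases hs : 2 ≤ s.count x
  · obtain ⟨u, v, w, rfl⟩ := two s hs
    have a1 := th3 h p u v w x
    have a2 := th3 h (p ++ List.replicate n x) u v w x
    have e : List.replicate n x ++ x :: (u ++ x :: (v ++ x :: w)) =
        List.replicate (n + 1) x ++ (u ++ x :: (v ++ x :: w)) := by
      rw [List.replicate_succ']; simp
    have e' : ∀ R : List ℕ, List.replicate n x ++ (List.replicate (n + 1) x ++ R) =
        List.replicate (2 * n + 1) x ++ R := by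
      intro R
      rw [← List.append_assoc, ← List.replicate_add]
      congr 2
      omega
    rw [List.append_assoc, List.append_assoc, e, e'] at a2
    exact β.trans a1 (β.trans (ex _ _ _) (RR.symm a2))
  · by_cases hp : 2 ≤ p.count x
    · obtain ⟨u, v, w, rfl⟩ := two p hp
      have a1 := th3 h u v w s x
      have a2 := th3 h u v w (List.replicate n x ++ s) x
      have e : ∀ R : List ℕ, x :: (List.replicate n x ++ R) = List.replicate (n + 1) x ++ R := by
        intro R; rw [List.replicate_succ]; rfl
      have e' : ∀ R : List ℕ, List.replicate (n + 1) x ++ (List.replicate n x ++ R) =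
          List.replicate (2 * n + 1) x ++ R := by
        intro R
        rw [← List.append_assoc, ← List.replicate_add]
        congr 2
        omega
      rw [e, e'] at a2
      have a3 := ex (u ++ (List.replicate (n + 1) x ++ (v ++ (List.replicate (n + 1) x ++ w)))) s x
      simp only [List.append_assoc, List.cons_append] at a1 a2 a3 ⊢
      exact β.trans a1 (β.trans a3 (RR.symm a2))
    · obtain ⟨u, v, rfl⟩ := spl p (List.count_pos_iff.1 (by omega))
      obtain ⟨w, z, rfl⟩ := spl s (List.count_pos_iff.1 (by omega))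
      have a1 := th3 h u v w z x
      have a2 := th3 h u (v ++ List.replicate n x) w z x
      have e : List.replicate n x ++ x :: (w ++ x :: z) =
          List.replicate (n + 1) x ++ (w ++ x :: z) := by
        rw [List.replicate_succ']; simp
      have e' : ∀ R : List ℕ, List.replicate n x ++ (List.replicate (n + 1) x ++ R) =
          List.replicate (2 * n + 1) x ++ R := by
        intro R
        rw [← List.append_assoc, ← List.replicate_add]
        congr 2
        omega
      rw [List.append_assoc, List.append_assoc, e, e'] at a2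
      have a3 := ex (u ++ (List.replicate (n + 1) x ++ v)) (w ++ (List.replicate (n + 1) x ++ z)) x
      simp only [List.append_assoc, List.cons_append] at a1 a2 a3 ⊢
      exact β.trans a1 (β.trans a3 (RR.symm a2))

/-- the number of copies -/
noncomputable def rr1 (n k : ℕ) (B : ℕ → List ℕ) (j c : ℕ) : ℕ :=
  open Classical in if 3 ≤ deg k (ty B c) ∧ (B j).count c = 1 then n + 1 else 1

/-- the normalised family -/
noncomputable def nrm (n k : ℕ) (B : ℕ → List ℕ) (j : ℕ) : List ℕ :=
  (B j).flatMap (fun c => List.replicate (rr1 n k B j c) c)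

theorem count_fm (r : ℕ → ℕ) (l : List ℕ) (a : ℕ) :
    (l.flatMap (fun c => List.replicate (r c) c)).count a = l.count a * r a := by
  induction l with
  | nil => simp
  | cons b l ih =>
    rw [List.flatMap_cons, List.count_append, ih, List.count_replicate, List.count_cons]
    by_cases h : b = a
    · subst h
      simp
      ring
    · have h1 : (b == a) = false := by simpa using h
      simp [h1]

theorem rr1_pos (n k : ℕ) (B : ℕ → List ℕ) (j c : ℕ) : 1 ≤ rr1 n k B j c := by
  unfold rr1
  split <;> omega

theorem nrm_count (n k : ℕ) (B : ℕ → List ℕ) (j c : ℕ) :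
    (nrm n k B j).count c = (B j).count c * rr1 n k B j c := count_fm _ _ _

theorem nrm_mem (n k : ℕ) (B : ℕ → List ℕ) (j c : ℕ) : c ∈ nrm n k B j ↔ c ∈ B j := by
  rw [← List.count_pos_iff, ← List.count_pos_iff, nrm_count]
  constructor
  · intro h
    exact Nat.pos_of_mul_pos_right h
  · intro h
    exact Nat.mul_pos h (rr1_pos n k B j c)

/-- repeat occurrences of letters with three occurrences in a list -/
theorem fm_rr {n : ℕ} {β : FIC} (h : BI n (RR β)) (q : List ℕ) (r : ℕ → ℕ) :
    ∀ (l p : List ℕ), (∀ c ∈ l, r c = 1 ∨ (3 ≤ (p ++ (l ++ q)).count c ∧ r c = n + 1)) →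
      RR β (p ++ (l ++ q)) (p ++ (l.flatMap (fun c => List.replicate (r c) c) ++ q)) := by
  intro l
  induction l with
  | nil => intro p _; exact RR.refl _
  | cons c l ih =>
    intro p hc
    rw [List.flatMap_cons]
    rcases hc c (by simp) with h1 | ⟨h1, h2⟩
    · rw [h1]
      have h3 := ih (p ++ [c]) (by
        intro d hd
        rcases hc d (by simp [hd]) with h4 | ⟨h4, h5⟩
        · exact Or.inl h4
        · exact Or.inr ⟨by simpa [List.append_assoc] using h4, h5⟩)
      simpa using h3
    · rw [h2]
      have h4 := th1 h p (l ++ q) c (by simpa using h1)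
      have h5 := ih (p ++ List.replicate (n + 1) c) (by
        intro d hd
        rcases hc d (by simp [hd]) with h4 | ⟨h4, h5⟩
        · exact Or.inl h4
        · refine Or.inr ⟨?_, h5⟩
          simp only [List.count_append, List.count_cons, List.count_replicate,
            List.cons_append] at h4 ⊢
          split_ifs at h4 ⊢ <;> omega)
      simp only [List.append_assoc, List.cons_append] at h4 h5 ⊢
      exact β.trans h4 h5

/-- the normalised family is related to the family -/
theorem nrm_rr {n : ℕ} {β : FIC} (h : BI n (RR β)) (k : ℕ) (B : ℕ → List ℕ) (hB : OkB k B) :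
    RR β (asm k B) (asm k (nrm n k B)) := by
  apply Pool.Agent.MWHP.Comp.c_MWS_Blr β k B (nrm n k B)
  intro m hm
  have e1 := asm_split hm (fun j => if j < m then nrm n k B j else B j)
  have e2 : asm k (fun j => if j < m + 1 then nrm n k B j else B j) =
      asm k (Function.update (fun j => if j < m then nrm n k B j else B j) m (nrm n k B m)) := by
    apply asm_congr
    intro j _
    by_cases hj : j = m
    · subst hj
      rw [Function.update_self, if_pos (Nat.lt_succ_self _)]
    · rw [Function.update_of_ne hj]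
      by_cases hl : j < m
      · rw [if_pos hl, if_pos (by omega)]
      · rw [if_neg hl, if_neg (by omega)]
  have e1' : asm k (fun j => if j < m then nrm n k B j else B j) =
      MVO.pre (fun j => if j < m then nrm n k B j else B j) m ++ (B m ++
        MVO.suf (fun j => if j < m then nrm n k B j else B j) m (k - m)) := by
    rw [e1, List.append_assoc]
    simp only [lt_irrefl, if_false]
  rw [e2, asm_update hm, e1', List.append_assoc]
  apply fm_rr h
  intro c hc
  by_cases hh : 3 ≤ deg k (ty B c) ∧ (B m).count c = 1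
  · right
    refine ⟨?_, by unfold rr1; rw [if_pos hh]⟩
    have hns : NS k c := hB.ok m hm c hc
    have h1 : (MVO.pre (fun j => if j < m then nrm n k B j else B j) m ++ (B m ++
        MVO.suf (fun j => if j < m then nrm n k B j else B j) m (k - m))).count c =
        deg k (fun j => ((if j < m then nrm n k B j else B j) : List ℕ).count c) := by
      rw [← count_asm hns, e1']
    rw [h1]
    refine hh.1.trans ?_
    unfold deg
    apply Finset.sum_le_sum
    intro i _
    change (B i).count c ≤ _
    by_cases hi : i < m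
    · rw [if_pos hi, nrm_count]
      exact Nat.le_mul_of_pos_right _ (rr1_pos n k B i c)
    · rw [if_neg hi]
  · left
    unfold rr1
    rw [if_neg hh]

theorem nrm_ok {n k : ℕ} {B : ℕ → List ℕ} (hB : OkB k B) : OkB k (nrm n k B) := by
  constructor
  · intro j hj c hc
    exact hB.ok j hj c ((nrm_mem n k B j c).1 hc)
  · intro j hj c hc
    refine (hB.ml j hj c ((nrm_mem n k B j c).1 hc)).trans ?_
    unfold deg
    apply Finset.sum_le_sum
    intro i _
    rw [nrm_count]
    exact Nat.le_mul_of_pos_right _ (rr1_pos n k B i c)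

theorem le_deg {k : ℕ} {a : ℕ → ℕ} {j : ℕ} (hj : j ≤ k) : a j ≤ deg k a :=
  Finset.single_le_sum (f := a) (fun _ _ => Nat.zero_le _) (Finset.mem_range.2 (by omega))

theorem le_deg2 {k : ℕ} {a : ℕ → ℕ} {i j : ℕ} (hi : i ≤ k) (hj : j ≤ k) (hij : i ≠ j) :
    a i + a j ≤ deg k a := by
  unfold deg
  have h1 : ∑ t ∈ ({i, j} : Finset ℕ), a t ≤ ∑ t ∈ Finset.range (k + 1), a t := by
    apply Finset.sum_le_sum_of_subset
    intro t ht
    rw [Finset.mem_insert, Finset.mem_singleton] at ht
    rcases ht with rfl | rfl <;> rw [Finset.mem_range] <;> omega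
  rwa [Finset.sum_pair hij] at h1

theorem le_deg3 {k : ℕ} {a : ℕ → ℕ} {i j l : ℕ} (hi : i ≤ k) (hj : j ≤ k) (hl : l ≤ k)
    (hij : i ≠ j) (hil : i ≠ l) (hjl : j ≠ l) : a i + a j + a l ≤ deg k a := by
  unfold deg
  have h1 : ∑ t ∈ ({i, j, l} : Finset ℕ), a t ≤ ∑ t ∈ Finset.range (k + 1), a t := by
    apply Finset.sum_le_sum_of_subset
    intro t ht
    rw [Finset.mem_insert, Finset.mem_insert, Finset.mem_singleton] at ht
    rcases ht with rfl | rfl | rfl <;> rw [Finset.mem_range] <;> omega
  rw [Finset.sum_insert (by simp [hij, hil]), Finset.sum_pair hjl] at h1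
  omega

/-- the normal form of a letter -/
theorem nrm_gi {n : ℕ} (hn : 1 ≤ n) {k : ℕ} {B : ℕ → List ℕ} (hB : OkB k B) (c : ℕ) :
    Gi k (ty (nrm n k B) c) := by
  by_cases h3 : 3 ≤ deg k (ty B c)
  · left
    intro j _
    show (nrm n k B j).count c = 0 ∨ 2 ≤ (nrm n k B j).count c
    rw [nrm_count]
    by_cases h0 : (B j).count c = 0
    · left; rw [h0, Nat.zero_mul]
    right
    by_cases h1 : (B j).count c = 1
    · have : rr1 n k B j c = n + 1 := by
        unfold rr1
        rw [if_pos ⟨h3, h1⟩]
      rw [this, h1]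
      omega
    · calc 2 ≤ (B j).count c * 1 := by omega
        _ ≤ _ := Nat.mul_le_mul_left _ (rr1_pos n k B j c)
  · have hr : ∀ j, rr1 n k B j c = 1 := by
      intro j
      unfold rr1
      rw [if_neg (fun h => h3 h.1)]
    have he : ∀ j, ty (nrm n k B) c j = ty B c j := by
      intro j
      show (nrm n k B j).count c = (B j).count c
      rw [nrm_count, hr, Nat.mul_one]
    by_cases hz : ∀ j ≤ k, ty B c j = 0 ∨ 2 ≤ ty B c j
    · left
      intro j hj
      rw [he]
      exact hz j hj
    · right
      push Not at hz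
      obtain ⟨u, hu, h0, h1⟩ := hz
      have hu1 : ty B c u = 1 := by omega
      have hc : c ∈ B u := List.count_pos_iff.1 (by
        show 0 < ty B c u
        omega)
      have hd := hB.ml u hu c hc
      have hd2 : deg k (ty B c) = 2 := by
        have : 2 ≤ deg k (ty B c) := hd
        omega
      -- another block
      obtain ⟨v, hv, hvu, hv0⟩ : ∃ v ≤ k, v ≠ u ∧ ty B c v ≠ 0 := by
        by_contra hne
        push Not at hne
        have : deg k (ty B c) = ty B c u := by
          unfold deg
          apply Finset.sum_eq_single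
          · intro b hb hbu
            exact hne b (by have := Finset.mem_range.1 hb; omega) hbu
          · intro h
            exact absurd (Finset.mem_range.2 (by omega)) h
        omega
      have h4 := le_deg2 (a := ty B c) hu hv (Ne.symm hvu)
      have hv1 : ty B c v = 1 := by omega
      have hz : ∀ l ≤ k, l ≠ u → l ≠ v → ty B c l = 0 := by
        intro l hl hlu hlv
        have := le_deg3 (a := ty B c) hu hv hl (Ne.symm hvu) (Ne.symm hlu) (Ne.symm hlv)
        omega
      rcases Nat.lt_or_gt_of_ne hvu with hlt | hlt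
      · exact ⟨v, u, ⟨hlt, hu, by rw [he, hv1], by rw [he, hu1], fun l hl h1 h2 => by
          rw [he]; exact hz l hl h2 h1⟩⟩
      · exact ⟨u, v, ⟨hlt, hv, by rw [he, hu1], by rw [he, hv1], fun l hl h1 h2 => by
          rw [he]; exact hz l hl h1 h2⟩⟩

/-- degree at least three is a property of the types -/
theorem deg3_iff {n k : ℕ} {a b : ℕ → ℕ} (h : Eq2 n k a b) (j : ℕ) (hj : j ≤ k) (ha : a j = 1)
    (hb : b j = 1) (h3 : 3 ≤ deg k a) : 3 ≤ deg k b := by
  by_cases h2 : ∃ l ≤ k, 2 ≤ a l
  · obtain ⟨l, hl, hal⟩ := h2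
    have hlj : l ≠ j := by rintro rfl; omega
    have := le_deg2 (a := b) hl hj hlj
    rcases h l hl with h4 | h4 <;> omega
  · push Not at h2
    have : deg k a = deg k b := by
      unfold deg
      apply Finset.sum_congr rfl
      intro i hi
      have hi' : i ≤ k := by have := Finset.mem_range.1 hi; omega
      have := h2 i hi'
      rcases h i hi' with h4 | h4 <;> omega
    omega

theorem eq2_symm {n k : ℕ} {a b : ℕ → ℕ} (h : Eq2 n k a b) : Eq2 n k b a := by
  intro j hj
  rcases h j hj with h1 | h1
  · exact Or.inl h1.symm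
  · exact Or.inr ⟨h1.2.1, h1.1, h1.2.2.symm⟩

theorem nrm_eqT {n k : ℕ} {B B' : ℕ → List ℕ} (hT : EqT n k B B') :
    EqT n k (nrm n k B) (nrm n k B') := by
  intro c hc j hj
  have h2 := hT c hc j hj
  change (B j).count c = (B' j).count c ∨ (2 ≤ (B j).count c ∧ 2 ≤ (B' j).count c ∧
    (B j).count c ≡ (B' j).count c [MOD n]) at h2
  change (nrm n k B j).count c = (nrm n k B' j).count c ∨ (2 ≤ (nrm n k B j).count c ∧
    2 ≤ (nrm n k B' j).count c ∧ (nrm n k B j).count c ≡ (nrm n k B' j).count c [MOD n])
  rw [nrm_count, nrm_count]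
  rcases h2 with h2 | ⟨h2, h3, h4⟩
  · left
    have : rr1 n k B j c = rr1 n k B' j c := by
      unfold rr1
      by_cases h1 : (B j).count c = 1
      · have h1' : (B' j).count c = 1 := by rw [← h2]; exact h1
        by_cases h5 : 3 ≤ deg k (ty B c)
        · rw [if_pos ⟨h5, h1⟩, if_pos ⟨deg3_iff (hT c hc) j hj h1 h1' h5, h1'⟩]
        · rw [if_neg (fun h => h5 h.1), if_neg (fun h => h5
            (deg3_iff (eq2_symm (hT c hc)) j hj h1' h1 h.1))]
      · rw [if_neg (fun h => h1 h.2), if_neg (fun h => h1 (by rw [h2]; exact h.2))]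
    rw [this, h2]
  · right
    have e1 : rr1 n k B j c = 1 := by
      unfold rr1
      rw [if_neg (fun h6 => by omega)]
    have e2 : rr1 n k B' j c = 1 := by
      unfold rr1
      rw [if_neg (fun h6 => by omega)]
    rw [e1, e2, Nat.mul_one, Nat.mul_one]
    exact ⟨h2, h3, h4⟩

/-- row PRI -/
theorem pri : PriStmt := by
  intro n β h hE
  have hb := basG h
  refine MWGR.B.ddg n β hb (MWGR.B.edd n β hb.cap ?_)
  intro k B B' hB hB' hT
  obtain ⟨L, hL, hiff⟩ := hE k (nrm n k B) (nrm n k B') (nrm_ok hB) (nrm_ok hB') (nrm_eqT hT)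
    (fun c _ => nrm_gi h.pos hB c) (fun c _ => nrm_gi h.pos hB' c)
  have r := nrm_rr h k B hB
  have r' := nrm_rr h k B' hB'
  refine ⟨L, hL, ?_⟩
  intro θ hθ nθ
  rw [← hiff θ hθ nθ]
  constructor
  · intro h1
    exact θ.trans (θ.symm (hθ _ _ r)) (θ.trans h1 (hθ _ _ r'))
  · intro h1
    exact θ.trans (hθ _ _ r) (θ.trans h1 (θ.symm (hθ _ _ r')))

/-- the sufficiency from the edges -/
theorem su2 (hE : EwiStmt) : Su2Stmt := by
  intro n β hn hP hS
  have h := bi_of hn hP hS
  have hD := pri n β h (hE n β h)
  exact ⟨hD, distF_modF hD⟩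

end Pool.Agent.MWGI.H48
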