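import Pool.Agent.MWGI.StmtsA

/-!
# Row RZE of squad MWGR, part 1: the token list of a block
-/

set_option autoImplicit false

namespace Pool.Agent.MWGI.H8

open Pool.Agent.Helper14_MV Pool.Agent.Helper2_MV Pool.Agent.MVO Pool.Agent.MWL Pool.Agent.MWS
  Pool.Agent.MWH

variable {k : ℕ}

/-- the tokens of the segment `u` between `l1` and `v` -/
def tks (H : List ℕ) : List ℕ → List ℕ → List ℕ → List ℕ
  | _, [], _ => []
  | l1, c :: u, v =>
    (if c ∈ H then (if c ∈ l1 then (if c ∈ u ++ v then [] else [3 * c + 2]) else [3 * c + 1])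
      else [3 * c]) ++ tks H (l1 ++ [c]) u v

theorem tks_cons (H l1 u v : List ℕ) (c : ℕ) : tks H l1 (c :: u) v =
    (if c ∈ H then (if c ∈ l1 then (if c ∈ u ++ v then [] else [3 * c + 2]) else [3 * c + 1])
      else [3 * c]) ++ tks H (l1 ++ [c]) u v := rfl

theorem tks_nil (H l1 v : List ℕ) : tks H l1 [] v = [] := rfl

theorem tks_light {H l1 u v : List ℕ} {c : ℕ} (hc : c ∉ H) :
    tks H l1 (c :: u) v = 3 * c :: tks H (l1 ++ [c]) u v := by
  rw [tks_cons, if_neg hc]
  rfl

theorem tks_first {H l1 u v : List ℕ} {c : ℕ} (hc : c ∈ H) (h1 : c ∉ l1) :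
    tks H l1 (c :: u) v = (3 * c + 1) :: tks H (l1 ++ [c]) u v := by
  rw [tks_cons, if_pos hc, if_neg h1]
  rfl

theorem tks_mid {H l1 u v : List ℕ} {c : ℕ} (hc : c ∈ H) (h1 : c ∈ l1) (h2 : c ∈ u ++ v) :
    tks H l1 (c :: u) v = tks H (l1 ++ [c]) u v := by
  rw [tks_cons, if_pos hc, if_pos h1, if_pos h2]
  rfl

theorem tks_last {H l1 u v : List ℕ} {c : ℕ} (hc : c ∈ H) (h1 : c ∈ l1) (h2 : c ∉ u ++ v) :
    tks H l1 (c :: u) v = (3 * c + 2) :: tks H (l1 ++ [c]) u v := by
  rw [tks_cons, if_pos hc, if_pos h1, if_neg h2]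
  rfl

theorem tks_append (H : List ℕ) : ∀ (u1 l1 u2 v : List ℕ),
    tks H l1 (u1 ++ u2) v = tks H l1 u1 (u2 ++ v) ++ tks H (l1 ++ u1) u2 v := by
  intro u1
  induction u1 with
  | nil =>
    intro l1 u2 v
    rw [tks_nil, List.append_nil]
    rfl
  | cons c u1 ih =>
    intro l1 u2 v
    rw [List.cons_append, tks_cons, tks_cons, ih, List.append_assoc u1 u2 v, List.append_assoc,
      List.append_assoc]
    rfl

theorem mem0 (H : List ℕ) (a : ℕ) : ∀ (u l1 v : List ℕ),
    3 * a ∈ tks H l1 u v ↔ a ∉ H ∧ a ∈ u := by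
  intro u
  induction u with
  | nil => intro l1 v; simp [tks_nil]
  | cons c u ih =>
    intro l1 v
    by_cases hc : c ∈ H
    · have h0 : 3 * a ∈ tks H l1 (c :: u) v ↔ 3 * a ∈ tks H (l1 ++ [c]) u v := by
        by_cases h1 : c ∈ l1
        · by_cases h2 : c ∈ u ++ v
          · rw [tks_mid hc h1 h2]
          · rw [tks_last hc h1 h2, List.mem_cons]
            have : 3 * a ≠ 3 * c + 2 := by omega
            tauto
        · rw [tks_first hc h1, List.mem_cons]
          have : 3 * a ≠ 3 * c + 1 := by omega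
          tauto
      rw [h0, ih, List.mem_cons]
      constructor
      · rintro ⟨h1, h2⟩
        exact ⟨h1, Or.inr h2⟩
      · rintro ⟨h1, h2⟩
        rcases h2 with rfl | h2
        · exact absurd hc h1
        · exact ⟨h1, h2⟩
    · rw [tks_light hc, List.mem_cons, ih, List.mem_cons]
      have h3 : 3 * a = 3 * c ↔ a = c := by omega
      rw [h3]
      constructor
      · rintro (rfl | ⟨h1, h2⟩)
        · exact ⟨hc, Or.inl rfl⟩
        · exact ⟨h1, Or.inr h2⟩
      · rintro ⟨h1, h2 | h2⟩
        · exact Or.inl h2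
        · exact Or.inr ⟨h1, h2⟩

theorem mem1 (H : List ℕ) (x : ℕ) : ∀ (u l1 v : List ℕ),
    3 * x + 1 ∈ tks H l1 u v ↔ x ∈ H ∧ x ∉ l1 ∧ x ∈ u := by
  intro u
  induction u with
  | nil => intro l1 v; simp [tks_nil]
  | cons c u ih =>
    intro l1 v
    have hm : x ∈ l1 ++ [c] ↔ x ∈ l1 ∨ x = c := by
      rw [List.mem_append, List.mem_singleton]
    have e2 : 3 * x + 1 ≠ 3 * c + 2 := by omega
    have e0 : 3 * x + 1 ≠ 3 * c := by omega
    have e1 : 3 * x + 1 = 3 * c + 1 ↔ x = c := by omega
    by_cases hc : c ∈ H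
    · by_cases h1 : c ∈ l1
      · have h0 : 3 * x + 1 ∈ tks H l1 (c :: u) v ↔ 3 * x + 1 ∈ tks H (l1 ++ [c]) u v := by
          by_cases h2 : c ∈ u ++ v
          · rw [tks_mid hc h1 h2]
          · rw [tks_last hc h1 h2, List.mem_cons]
            tauto
        rw [h0, ih, hm, List.mem_cons]
        by_cases hx : x = c
        · subst hx
          tauto
        · tauto
      · rw [tks_first hc h1, List.mem_cons, ih, hm, List.mem_cons, e1]
        by_cases hx : x = c
        · subst hx
          tauto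
        · tauto
    · rw [tks_light hc, List.mem_cons, ih, hm, List.mem_cons]
      by_cases hx : x = c
      · subst hx
        tauto
      · tauto

theorem mem2 (H : List ℕ) (x : ℕ) : ∀ (u l1 v : List ℕ),
    3 * x + 2 ∈ tks H l1 u v ↔ x ∈ H ∧ x ∈ u ∧ x ∉ v ∧ (x ∈ l1 ∨ 2 ≤ u.count x) := by
  intro u
  induction u with
  | nil => intro l1 v; simp [tks_nil]
  | cons c u ih =>
    intro l1 v
    have hm : x ∈ l1 ++ [c] ↔ x ∈ l1 ∨ x = c := by
      rw [List.mem_append, List.mem_singleton]
    have e1 : 3 * x + 2 ≠ 3 * c + 1 := by omega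
    have e0 : 3 * x + 2 ≠ 3 * c := by omega
    have e2 : 3 * x + 2 = 3 * c + 2 ↔ x = c := by omega
    by_cases hx : x = c
    · subst hx
      have hcnt : (x :: u).count x = u.count x + 1 := List.count_cons_self
      have hcu : 2 ≤ (x :: u).count x ↔ x ∈ u := by
        rw [hcnt, ← List.count_pos_iff]
        omega
      rw [hcu]
      have hxx : x ∈ x :: u := List.mem_cons_self
      by_cases hc : x ∈ H
      · by_cases h1 : x ∈ l1
        · by_cases h2 : x ∈ u ++ v
          · rw [tks_mid hc h1 h2, ih, hm]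
            rw [List.mem_append] at h2
            tauto
          · rw [tks_last hc h1 h2, List.mem_cons, ih, hm]
            rw [List.mem_append] at h2
            tauto
        · rw [tks_first hc h1, List.mem_cons, ih, hm]
          tauto
      · rw [tks_light hc, List.mem_cons, ih, hm]
        tauto
    · have hcnt : (c :: u).count x = u.count x := List.count_cons_of_ne (fun h => hx h.symm)
      rw [hcnt, List.mem_cons]
      have hmm : x ∈ l1 ++ [c] ↔ x ∈ l1 := by
        rw [hm]
        tauto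
      by_cases hc : c ∈ H
      · by_cases h1 : c ∈ l1
        · by_cases h2 : c ∈ u ++ v
          · rw [tks_mid hc h1 h2, ih, hmm]
            tauto
          · rw [tks_last hc h1 h2, List.mem_cons, ih, hmm, e2]
            tauto
        · rw [tks_first hc h1, List.mem_cons, ih, hmm]
          tauto
      · rw [tks_light hc, List.mem_cons, ih, hmm]
        tauto

theorem memt (H : List ℕ) (t : ℕ) : ∀ (u l1 v : List ℕ), t ∈ tks H l1 u v →
    (t % 3 = 0 ∧ t / 3 ∉ H ∧ t / 3 ∈ u) ∨ (t % 3 ≠ 0 ∧ t / 3 ∈ H) := by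
  intro u l1 v ht
  have h3 : t % 3 = 0 ∨ t % 3 = 1 ∨ t % 3 = 2 := by omega
  rcases h3 with h | h | h
  · have e : t = 3 * (t / 3) := by omega
    rw [e, mem0] at ht
    exact Or.inl ⟨h, ht⟩
  · have e : t = 3 * (t / 3) + 1 := by omega
    rw [e, mem1] at ht
    exact Or.inr ⟨by omega, ht.1⟩
  · have e : t = 3 * (t / 3) + 2 := by omega
    rw [e, mem2] at ht
    exact Or.inr ⟨by omega, ht.1⟩

theorem nodup_tks (H : List ℕ) : ∀ (u l1 v : List ℕ), (∀ a ∈ u, a ∉ H → u.count a = 1) →
    (tks H l1 u v).Nodup := by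
  intro u
  induction u with
  | nil => intro l1 v _; rw [tks_nil]; exact List.nodup_nil
  | cons c u ih =>
    intro l1 v h
    have h' := ih (l1 ++ [c]) v (by
      intro a ha haH
      have h1 := h a (List.mem_cons_of_mem _ ha) haH
      by_cases hac : a = c
      · subst hac
        rw [List.count_cons_self] at h1
        have := List.count_pos_iff.2 ha
        omega
      · rw [List.count_cons_of_ne (fun h => hac h.symm)] at h1
        exact h1)
    by_cases hc : c ∈ H
    · by_cases h1 : c ∈ l1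
      · by_cases h2 : c ∈ u ++ v
        · rw [tks_mid hc h1 h2]
          exact h'
        · rw [tks_last hc h1 h2, List.nodup_cons]
          refine ⟨?_, h'⟩
          rw [mem2]
          rw [List.mem_append] at h2
          tauto
      · rw [tks_first hc h1, List.nodup_cons]
        refine ⟨?_, h'⟩
        rw [mem1]
        intro h3
        exact h3.2.1 (List.mem_append_right _ (List.mem_singleton.2 rfl))
    · rw [tks_light hc, List.nodup_cons]
      refine ⟨?_, h'⟩
      rw [mem0]
      intro h3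
      have h4 := h c List.mem_cons_self hc
      rw [List.count_cons_self] at h4
      have := List.count_pos_iff.2 h3.2
      omega

theorem pre_right {T P Q : List ℕ} {s t : ℕ} (hn : T.Nodup) (hT : T = P ++ s :: Q) :
    Pre T s t ↔ t ∈ Q := by
  have hn' := hn
  rw [hT, List.nodup_append] at hn'
  obtain ⟨-, h2, h3⟩ := hn'
  have hsQ : s ∉ Q := (List.nodup_cons.1 h2).1
  have hsP : s ∉ P := fun h => h3 s h s List.mem_cons_self rfl
  constructor
  · rintro ⟨T1, T2, T3, h⟩
    rw [hT] at h
    have h4 := (List.append_cons_inj_of_notMem hsP hsQ).1 h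
    rw [h4.2.2]
    exact List.mem_append_right _ List.mem_cons_self
  · intro h
    obtain ⟨Q1, Q2, rfl⟩ := List.append_of_mem h
    exact ⟨P, Q1, Q2, hT⟩

theorem pre_left {T P Q : List ℕ} {s t : ℕ} (hn : T.Nodup) (hT : T = P ++ s :: Q) :
    Pre T t s ↔ t ∈ P := by
  have hn' := hn
  rw [hT, List.nodup_append] at hn'
  obtain ⟨-, h2, h3⟩ := hn'
  have hsQ : s ∉ Q := (List.nodup_cons.1 h2).1
  have hsP : s ∉ P := fun h => h3 s h s List.mem_cons_self rfl
  constructor
  · rintro ⟨T1, T2, T3, h⟩
    rw [hT] at h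
    have h' : P ++ s :: Q = (T1 ++ t :: T2) ++ s :: T3 := by
      rw [h, List.append_assoc]
      rfl
    have h4 := (List.append_cons_inj_of_notMem hsP hsQ).1 h'
    rw [h4.1]
    exact List.mem_append_right _ List.mem_cons_self
  · intro h
    obtain ⟨P1, P2, rfl⟩ := List.append_of_mem h
    refine ⟨P1, P2, Q, ?_⟩
    rw [hT, List.append_assoc]
    rfl

theorem cb_split {u v : List ℕ} {a : ℕ} (ha : a ∉ u) (x : ℕ) :
    cb (u ++ a :: v) x a = u.count x := by
  unfold cb
  have h1 : (u ++ a :: v).takeWhile (fun c => decide (c ≠ a)) = u := by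
    rw [List.takeWhile_append_of_pos]
    · rw [List.takeWhile_cons_of_neg (by simp), List.append_nil]
    · intro c hc
      rw [decide_eq_true_iff]
      rintro rfl
      exact ha hc
  rw [h1]

/-- the facts about the token list -/
theorem tok_facts {H pre suf l : List ℕ} (hl : Ok1 k H pre suf l) :
    Tk k H pre suf (tks H [] l []) ∧ (∀ a, a ∉ H → (3 * a ∈ tks H [] l [] ↔ a ∈ l)) ∧
      (∀ x ∈ H, ∀ a ∈ l, a ∉ H → (Pre (tks H [] l []) (3 * a) (3 * x + 1) ↔ cb l x a = 0) ∧
        (Pre (tks H [] l []) (3 * x + 2) (3 * a) ↔ cb l x a = l.count x)) ∧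
      (∀ a ∈ l, ∀ b ∈ l, a ∉ H → b ∉ H → a ≠ b →
        (Pre (tks H [] l []) (3 * a) (3 * b) ↔ cb l a b = 1)) := by
  have hnd : (tks H [] l []).Nodup := nodup_tks H l [] [] fun a ha haH => (hl.lt a ha haH).1
  -- splitting at a light letter
  have hsp : ∀ a ∈ l, a ∉ H → ∃ u v : List ℕ, l = u ++ a :: v ∧ a ∉ u ∧ a ∉ v ∧
      tks H [] l [] = tks H [] u (a :: v) ++ 3 * a :: tks H (u ++ [a]) v [] := by
    intro a ha haH
    obtain ⟨u, v, huv⟩ := List.append_of_mem ha
    have h1 := (hl.lt a ha haH).1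
    rw [huv, List.count_append, List.count_cons_self] at h1
    refine ⟨u, v, huv, fun h => ?_, fun h => ?_, ?_⟩
    · have := List.count_pos_iff.2 h
      omega
    · have := List.count_pos_iff.2 h
      omega
    · rw [huv, tks_append, tks_light haH, List.append_nil, List.nil_append]
  refine ⟨⟨hnd, ?_, ?_, ?_⟩, ?_, ?_, ?_⟩
  · -- `3x+1` before `3x+2`
    intro x hx
    have h2 := hl.hv x hx
    have hxl : x ∈ l := List.count_pos_iff.1 (by omega)
    obtain ⟨u, v, huv, hxu⟩ : ∃ u v : List ℕ, l = u ++ x :: v ∧ x ∉ u := by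
      obtain ⟨u, v, h3, h4⟩ := List.eq_append_cons_of_mem hxl
      exact ⟨u, v, h3, h4⟩
    have hxv : x ∈ v := by
      rw [huv, List.count_append, List.count_cons_self, List.count_eq_zero.2 hxu] at h2
      exact List.count_pos_iff.1 (by omega)
    have h3 : tks H [] l [] = tks H [] u (x :: v) ++ (3 * x + 1) :: tks H (u ++ [x]) v [] := by
      rw [huv, tks_append, List.nil_append, tks_first hx hxu, List.append_nil]
    rw [pre_right hnd h3, mem2]
    exact ⟨hx, hxv, List.not_mem_nil, Or.inl (List.mem_append_right _ (List.mem_singleton.2 rfl))⟩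
  · intro t ht
    rcases memt H t l [] [] ht with h | h
    · have h1 := hl.lt _ h.2.2 h.2.1
      exact Or.inl ⟨h.1, h.2.1, h1.2⟩
    · exact Or.inr h
  · intro z hz hN
    by_cases hzH : z ∈ H
    · exact Or.inl hzH
    right
    by_cases hzl : z ∈ l
    · left
      rw [mem0]
      exact ⟨hzH, hzl⟩
    · right
      have h1 := hl.mu z hz hN
      rw [List.count_append, List.count_append, List.count_eq_zero.2 hzl] at h1
      rw [List.count_append]
      omega
  · intro a ha
    rw [mem0]
    exact ⟨fun h => h.2, fun h => ⟨ha, h⟩⟩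
  · intro x hx a ha haH
    obtain ⟨u, v, huv, hau, hav, hT⟩ := hsp a ha haH
    have hxa : x ≠ a := fun h => haH (h ▸ hx)
    have h2 := hl.hv x hx
    have hc : l.count x = u.count x + v.count x := by
      rw [huv, List.count_append, List.count_cons_of_ne (fun h => hxa h.symm)]
    have hcb : cb l x a = u.count x := by
      rw [huv]
      exact cb_split hau x
    rw [pre_right hnd hT, pre_left hnd hT, mem1, mem2, hcb, hc]
    have e1 : x ∈ u ++ [a] ↔ x ∈ u := by
      rw [List.mem_append, List.mem_singleton]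
      tauto
    have e2 : x ∈ a :: v ↔ x ∈ v := by
      rw [List.mem_cons]
      tauto
    rw [e1, e2]
    have p1 : x ∈ u ↔ 0 < u.count x := List.count_pos_iff.symm
    have p2 : x ∈ v ↔ 0 < v.count x := List.count_pos_iff.symm
    have p3 : x ∉ ([] : List ℕ) := List.not_mem_nil
    rw [p1, p2]
    constructor
    · constructor
      · rintro ⟨-, h4, -⟩
        omega
      · intro h4
        exact ⟨hx, by omega, by omega⟩
    · constructor
      · rintro ⟨-, h4, h5, -⟩
        omega
      · intro h4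
        exact ⟨hx, by omega, by omega, Or.inr (by omega)⟩
  · intro a ha b hb haH hbH hab
    obtain ⟨u, v, huv, hbu, hbv, hT⟩ := hsp b hb hbH
    have h1 := (hl.lt a ha haH).1
    have hc : l.count a = u.count a + v.count a := by
      rw [huv, List.count_append, List.count_cons_of_ne (fun h => hab h.symm)]
    have hcb : cb l a b = u.count a := by
      rw [huv]
      exact cb_split hbu a
    rw [pre_left hnd hT, mem0, hcb]
    have p1 : a ∈ u ↔ 0 < u.count a := List.count_pos_iff.symm
    rw [p1]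
    constructor
    · rintro ⟨-, h4⟩
      omega
    · intro h4
      exact ⟨haH, by omega⟩

end Pool.Agent.MWGI.H8
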